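import Pool.Agent.W_fa9b59_h31.Cov

set_option autoImplicit false

/-!
# Balanced convex functions: the triangle inequality with the edge potential

`R` is a linear map of the plane with `R ^ 2 + R + 1 = 0`, `qf R z = det (z, R z)`, and `Q` is a convex function with
`Q (R z) = Q z` and `Q z + Q (-z) = 2 * qf R z`. If `Q ≤ m` at all points `(x + R y + R ^ 2 z) / 3`, `x, y, z ∈ K`, then
`TB K (pf R Q) (3 m / 2)` holds.
-/

open MeasureTheory Metric Set

namespace NC31

open FB88 NT31

/-- the quadratic form of `R` -/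
def qf (R : E →ₗ[ℝ] E) (z : E) : ℝ := det2 z (R z)

/-- the vertex of the centred triangle with the edge `e` -/
noncomputable def ve (R : E →ₗ[ℝ] E) (e : E) : E := -((1 / 3 : ℝ) • (R e + (2 : ℝ) • e))

/-- the edge potential -/
noncomputable def pf (R : E →ₗ[ℝ] E) (Q : E → ℝ) (e : E) : ℝ := (qf R (ve R e) - Q (ve R e)) / 2

/-- `R` has order three, without fixed vectors -/
def Rel (R : E →ₗ[ℝ] E) : Prop := ∀ z, R (R z) + R z + z = 0

/-- `Q` is convex, invariant under `R`, with even part `qf R` -/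
structure Bal (R : E →ₗ[ℝ] E) (Q : E → ℝ) : Prop where
  conv : ConvexOn ℝ univ Q
  inv : ∀ z, Q (R z) = Q z
  bal : ∀ z, Q z + Q (-z) = 2 * qf R z

variable {R : E →ₗ[ℝ] E} {Q : E → ℝ}

theorem Rel.rr (h : Rel R) (z : E) : R (R z) = -R z - z := by
  have h1 := h z
  have h2 : R (R z) = (R (R z) + R z + z) - R z - z := by abel
  rw [h2, h1]
  abel

theorem det2_add_left (a b c : E) : det2 (a + b) c = det2 a c + det2 b c := by
  simp only [det2, PiLp.add_apply]
  ring

theorem det2_add_right (a b c : E) : det2 a (b + c) = det2 a b + det2 a c := by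
  simp only [det2, PiLp.add_apply]
  ring

theorem det2_sub_left (a b c : E) : det2 (a - b) c = det2 a c - det2 b c := by
  simp only [det2, PiLp.sub_apply]
  ring

theorem det2_sub_right (a b c : E) : det2 a (b - c) = det2 a b - det2 a c := by
  simp only [det2, PiLp.sub_apply]
  ring

theorem det2_neg_left (a b : E) : det2 (-a) b = -det2 a b := by
  simp only [det2, PiLp.neg_apply]
  ring

theorem det2_neg_right (a b : E) : det2 a (-b) = -det2 a b := by
  simp only [det2, PiLp.neg_apply]
  ring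

theorem det2_smul_left (s : ℝ) (a b : E) : det2 (s • a) b = s * det2 a b := by
  simp only [det2, PiLp.smul_apply, smul_eq_mul]
  ring

theorem det2_smul_right (s : ℝ) (a b : E) : det2 a (s • b) = s * det2 a b := by
  simp only [det2, PiLp.smul_apply, smul_eq_mul]
  ring

theorem det2_swap (a b : E) : det2 a b = -det2 b a := by
  simp only [det2]
  ring

theorem det2_self' (a : E) : det2 a a = 0 := by
  simp only [det2]
  ring

/-- coordinates of `R` -/
theorem Rel.coord (R : E →ₗ[ℝ] E) : ∃ a b c d : ℝ, ∀ z : E, R z 0 = a * z 0 + b * z 1 ∧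
    R z 1 = c * z 0 + d * z 1 := by
  refine ⟨R (pt 1 0) 0, R (pt 0 1) 0, R (pt 1 0) 1, R (pt 0 1) 1, fun z => ?_⟩
  have hz : z = z 0 • pt 1 0 + z 1 • pt 0 1 := by
    ext i
    fin_cases i <;> simp [pt]
  have h1 : R z = z 0 • R (pt 1 0) + z 1 • R (pt 0 1) := by
    rw [← map_smul, ← map_smul, ← map_add, ← hz]
  constructor
  · rw [h1]
    simp only [PiLp.add_apply, PiLp.smul_apply, smul_eq_mul]
    ring
  · rw [h1]
    simp only [PiLp.add_apply, PiLp.smul_apply, smul_eq_mul]
    ring

/-- trace `-1`, determinant `1` -/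
theorem Rel.trdet (h : Rel R) {a b c d : ℝ}
    (hc : ∀ z : E, R z 0 = a * z 0 + b * z 1 ∧ R z 1 = c * z 0 + d * z 1) :
    a + d = -1 ∧ a * d - b * c = 1 := by
  have h1 := h (pt 1 0)
  have h2 := h (pt 0 1)
  have e00 := congrArg (fun z : E => z 0) h1
  have e01 := congrArg (fun z : E => z 1) h1
  have e10 := congrArg (fun z : E => z 0) h2
  have e11 := congrArg (fun z : E => z 1) h2
  simp only [PiLp.add_apply, PiLp.zero_apply, (hc _).1, (hc _).2] at e00 e01 e10 e11
  simp only [pt, Matrix.cons_val_zero, Matrix.cons_val_one, PiLp.toLp_apply] at e00 e01 e10 e11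
  simp only [mul_one, mul_zero, add_zero, zero_add] at e00 e01 e10 e11
  have hb : b ≠ 0 := by
    rintro rfl
    nlinarith [sq_nonneg (a + 1 / 2)]
  have h3 : a + d = -1 := by
    have h4 : b * (a + d + 1) = 0 := by linarith
    rcases mul_eq_zero.1 h4 with h5 | h5
    · exact absurd h5 hb
    · linarith
  refine ⟨h3, ?_⟩
  have h6 : d = -1 - a := by linarith
  rw [h6]
  linarith

/-- `R` preserves the area -/
theorem Rel.det_rr (h : Rel R) (x y : E) : det2 (R x) (R y) = det2 x y := by
  obtain ⟨a, b, c, d, hc⟩ := Rel.coord R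
  obtain ⟨-, h2⟩ := h.trdet hc
  simp only [det2, (hc _).1, (hc _).2]
  linear_combination (x 0 * y 1 - x 1 * y 0) * h2

theorem Rel.det_r (h : Rel R) (x y : E) : det2 (R x) y = -det2 x y - det2 x (R y) := by
  have h1 := h.det_rr (R x) y
  rw [h.rr, det2_sub_left, det2_neg_left, h.det_rr] at h1
  linarith

theorem qf_neg (z : E) : qf R (-z) = qf R z := by
  unfold qf
  rw [map_neg, det2_neg_left, det2_neg_right, neg_neg]

theorem Rel.qf_r (h : Rel R) (z : E) : qf R (R z) = qf R z := h.det_rr _ _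

theorem ve_neg (e : E) : ve R (-e) = -ve R e := by
  unfold ve
  rw [map_neg]
  module

theorem Bal.pf_neg (hQ : Bal R Q) (e : E) : pf R Q (-e) = -pf R Q e := by
  unfold pf
  have h1 := hQ.bal (ve R e)
  rw [ve_neg, qf_neg]
  linarith

theorem Bal.three (hQ : Bal R Q) (a b c : E) :
    3 * Q ((1 / 3 : ℝ) • (a + b + c)) ≤ Q a + Q b + Q c := by
  have h1 := hQ.conv.2 (mem_univ a) (mem_univ b) (by norm_num : (0 : ℝ) ≤ 1 / 2)
    (by norm_num : (0 : ℝ) ≤ 1 / 2) (by norm_num)
  have h2 := hQ.conv.2 (mem_univ ((1 / 2 : ℝ) • a + (1 / 2 : ℝ) • b)) (mem_univ c)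
    (by norm_num : (0 : ℝ) ≤ 2 / 3) (by norm_num : (0 : ℝ) ≤ 1 / 3) (by norm_num)
  have h3 : (2 / 3 : ℝ) • ((1 / 2 : ℝ) • a + (1 / 2 : ℝ) • b) + (1 / 3 : ℝ) • c =
      (1 / 3 : ℝ) • (a + b + c) := by module
  rw [h3] at h2
  simp only [smul_eq_mul] at h1 h2
  linarith

/-- the area in terms of the two complex Fourier coefficients -/
theorem Rel.area (h : Rel R) (x y z : E) :
    det2 (y - x) (z - x) = 3 * (qf R ((1 / 3 : ℝ) • (x + R (R y) + R z)) -
      qf R ((1 / 3 : ℝ) • (x + R y + R (R z)))) := by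
  have k1 := h.det_rr x y
  have k2 := h.det_rr x z
  have k3 := h.det_rr y z
  have k4 := h.det_r x y
  have k5 := h.det_r x z
  have k6 := h.det_r y z
  have k7 := h.det_r y x
  have k8 := h.det_r z x
  have k9 := h.det_r z y
  have kx := h.det_r x x
  have ky := h.det_r y y
  have kz := h.det_r z z
  unfold qf
  simp only [map_smul, map_add, h.rr, map_sub, map_neg]
  simp only [det2, PiLp.add_apply, PiLp.sub_apply, PiLp.neg_apply, PiLp.smul_apply,
    smul_eq_mul] at *
  linarith

theorem Rel.qsum (h : Rel R) (A B : E) : qf R (A - R (R B)) + qf R (A - B) + qf R (A - R B) =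
    3 * qf R A + 3 * qf R B := by
  have k1 := h.det_rr A B
  have k2 := h.det_r A B
  have k3 := h.det_r B A
  have k4 := h.det_r A A
  have k5 := h.det_r B B
  unfold qf
  simp only [map_add, h.rr, map_sub, map_neg]
  simp only [det2, PiLp.add_apply, PiLp.sub_apply, PiLp.neg_apply] at *
  linarith

end NC31
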