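import Pool.Agent.W_fa9b59_c3.TriA
import Pool.Agent.W_fa9b59_h88.Main

set_option autoImplicit false

/-!
# Bodies with a triangular potential: the covering bound

`R` has order three, `qf R z = det (z, R z)`. The edge potential is the sum of a polynomial
`cf = (k + s * e2) * e3` (`e2`, `e3` the elementary symmetric functions of `f z, f (R z), f (R² z)`)
and of the odd part of a convex function `G` with `G (R z) = G z`, `G z + G (-z) ≤ 2 * l * qf R z`.
-/

open MeasureTheory Metric Set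

namespace NC31

open FB88 NT31 FB88Stmt

variable {R : E →ₗ[ℝ] E} {G : E → ℝ} {l : ℝ}

/-- the quadratic form of `f` -/
def e2 (R : E →ₗ[ℝ] E) (f : E →ₗ[ℝ] ℝ) (z : E) : ℝ := f z ^ 2 + f z * f (R z) + f (R z) ^ 2

/-- the cubic form of `f` -/
def e3 (R : E →ₗ[ℝ] E) (f : E →ₗ[ℝ] ℝ) (z : E) : ℝ := f z * f (R z) * f (R (R z))

/-- the polynomial -/
def cf (R : E →ₗ[ℝ] E) (f : E →ₗ[ℝ] ℝ) (k s : ℝ) (z : E) : ℝ :=
  (k + s * e2 R f z) * e3 R f z

/-- the convex function -/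
structure Gc (R : E →ₗ[ℝ] E) (G : E → ℝ) (l : ℝ) : Prop where
  conv : ConvexOn ℝ univ G
  inv : ∀ z, G (R z) = G z
  bal : ∀ z, G z + G (-z) ≤ 2 * l * qf R z

/-- the edge potential -/
noncomputable def pg (R : E →ₗ[ℝ] E) (f : E →ₗ[ℝ] ℝ) (k s : ℝ) (G : E → ℝ) (e : E) : ℝ :=
  (cf R f k s (ve R e) + (G (ve R e) - G (-ve R e)) / 2) / 2

theorem Rel.ve1 (h : Rel R) (x y z : E) : ve R (y - x) =
    (1 / 3 : ℝ) • (x + R (R y) + R z) - R (R ((1 / 3 : ℝ) • (x + R y + R (R z)))) := by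
  unfold ve
  simp only [map_smul, map_add, h.rr, map_sub, map_neg]
  module

theorem Rel.ve2 (h : Rel R) (x y z : E) : ve R (z - y) =
    R ((1 / 3 : ℝ) • (x + R (R y) + R z) - (1 / 3 : ℝ) • (x + R y + R (R z))) := by
  unfold ve
  simp only [map_smul, map_add, h.rr, map_sub, map_neg]
  module

theorem Rel.ve3 (h : Rel R) (x y z : E) : ve R (x - z) =
    R (R ((1 / 3 : ℝ) • (x + R (R y) + R z) - R ((1 / 3 : ℝ) • (x + R y + R (R z))))) := by
  unfold ve
  simp only [map_smul, map_add, h.rr, map_sub, map_neg]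
  module

theorem cf_neg (f : E →ₗ[ℝ] ℝ) (k s : ℝ) (z : E) : cf R f k s (-z) = -cf R f k s z := by
  unfold cf e2 e3
  simp only [map_neg]
  ring

theorem Rel.rrr (h : Rel R) (z : E) : R (R (R z)) = z := by
  rw [h.rr (R z), h.rr z]
  abel

theorem Rel.f_rr (h : Rel R) (f : E →ₗ[ℝ] ℝ) (z : E) : f (R (R z)) = -f (R z) - f z := by
  rw [h.rr, map_sub, map_neg]

theorem Rel.cf_r (h : Rel R) (f : E →ₗ[ℝ] ℝ) (k s : ℝ) (z : E) :
    cf R f k s (R z) = cf R f k s z := by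
  unfold cf e2 e3
  rw [h.rrr, h.f_rr]
  ring

/-- the sum over the three edges in terms of the two Fourier coefficients -/
theorem Rel.csum (h : Rel R) (f : E →ₗ[ℝ] ℝ) (k s : ℝ) (A B : E) :
    cf R f k s (A - R (R B)) + cf R f k s (A - B) + cf R f k s (A - R B) =
      3 * (k * (e3 R f A - e3 R f B) + s * ((e2 R f A + 4 * e2 R f B) * e3 R f A -
        (4 * e2 R f A + e2 R f B) * e3 R f B)) := by
  unfold cf e2 e3
  simp only [map_sub, h.rrr]
  rw [h.f_rr f A, h.f_rr f B]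
  ring

theorem pg_neg (f : E →ₗ[ℝ] ℝ) (k s : ℝ) (e : E) : pg R f k s G (-e) = -pg R f k s G e := by
  unfold pg
  rw [ve_neg, cf_neg, neg_neg]
  ring

theorem Gc.three (hG : Gc R G l) (a b c : E) :
    3 * G ((1 / 3 : ℝ) • (a + b + c)) ≤ G a + G b + G c := by
  have h1 := hG.conv.2 (mem_univ a) (mem_univ b) (by norm_num : (0 : ℝ) ≤ 1 / 2)
    (by norm_num : (0 : ℝ) ≤ 1 / 2) (by norm_num)
  have h2 := hG.conv.2 (mem_univ ((1 / 2 : ℝ) • a + (1 / 2 : ℝ) • b)) (mem_univ c)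
    (by norm_num : (0 : ℝ) ≤ 2 / 3) (by norm_num : (0 : ℝ) ≤ 1 / 3) (by norm_num)
  have h3 : (2 / 3 : ℝ) • ((1 / 2 : ℝ) • a + (1 / 2 : ℝ) • b) + (1 / 3 : ℝ) • c =
      (1 / 3 : ℝ) • (a + b + c) := by module
  rw [h3] at h2
  simp only [smul_eq_mul] at h1 h2
  linarith

/-- the inequality for the two Fourier coefficients of a triangle -/
def Hin (R : E →ₗ[ℝ] E) (f : E →ₗ[ℝ] ℝ) (k s : ℝ) (G : E → ℝ) (l m : ℝ) (a b : E) : Prop :=
  (1 + l) * qf R a - (1 - l) * qf R b - G a ≤ m + k * (e3 R f a - e3 R f b) +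
    s * ((e2 R f a + 4 * e2 R f b) * e3 R f a - (4 * e2 R f a + e2 R f b) * e3 R f b)

/-- the hypothesis on the body -/
def Hyp (R : E →ₗ[ℝ] E) (f : E →ₗ[ℝ] ℝ) (k s : ℝ) (G : E → ℝ) (l m : ℝ) (K : Set E) : Prop :=
  ∀ x ∈ K, ∀ y ∈ K, ∀ z ∈ K,
    Hin R f k s G l m ((1 / 3 : ℝ) • (x + R (R y) + R z)) ((1 / 3 : ℝ) • (x + R y + R (R z)))

/-- the triangle inequality with the edge potential -/
theorem Gc.tb (h : Rel R) (hG : Gc R G l) {f : E →ₗ[ℝ] ℝ} {k s m : ℝ} {K : Set E}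
    (hm : Hyp R f k s G l m K) : TB K (pg R f k s G) (3 * m / 2) := by
  intro x hx y hy z hz
  have hA := hm x hx y hy z hz
  rw [h.area]
  have e1 := h.ve1 x y z
  have e2' := h.ve2 x y z
  have e3' := h.ve3 x y z
  unfold Hin at hA
  generalize (1 / 3 : ℝ) • (x + R (R y) + R z) = A at *
  generalize (1 / 3 : ℝ) • (x + R y + R (R z)) = B at *
  have n2 : G (-R (A - B)) = G (-(A - B)) := by rw [← map_neg, hG.inv]
  have n3 : G (-R (R (A - R B))) = G (-(A - R B)) := by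
    rw [← map_neg, hG.inv, ← map_neg, hG.inv]
  unfold pg
  rw [e1, e2', e3', n2, n3, h.cf_r, h.cf_r, h.cf_r, hG.inv, hG.inv, hG.inv]
  have s1 := h.qsum A B
  have s2 := h.csum f k s A B
  have b1 := hG.bal (A - R (R B))
  have b2 := hG.bal (A - B)
  have b3 := hG.bal (A - R B)
  have j := hG.three (A - R (R B)) (A - B) (A - R B)
  have j1 : (1 / 3 : ℝ) • (A - R (R B) + (A - B) + (A - R B)) = A := by
    rw [h.rr]
    module
  rw [j1] at j
  have hq : 2 * l * qf R (A - R (R B)) + 2 * l * qf R (A - B) + 2 * l * qf R (A - R B) =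
      2 * l * (3 * qf R A + 3 * qf R B) := by
    rw [← s1]
    ring
  linarith

/-- the potential is bounded on the differences -/
theorem Gc.bdd (hG : Gc R G l) (f : E →ₗ[ℝ] ℝ) (k s : ℝ) {K : Set E} (hK : IsCompact K) :
    ∃ B : ℝ, ∀ x ∈ K, ∀ y ∈ K, |pg R f k s G (x - y)| ≤ B := by
  have hc : Continuous G := continuousOn_univ.1 (hG.conv.continuousOn isOpen_univ)
  have hR : Continuous R := R.continuous_of_finiteDimensional
  have hf : Continuous f := f.continuous_of_finiteDimensional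
  have hv : Continuous (ve R) := by
    unfold ve
    fun_prop
  have hcf : Continuous (cf R f k s) := by
    unfold cf e2 e3
    fun_prop
  have hp : Continuous (pg R f k s G) := by
    unfold pg
    fun_prop
  have hd : Continuous (fun p : E × E => pg R f k s G (p.1 - p.2)) := by fun_prop
  obtain ⟨B, hB⟩ := (hK.prod hK).exists_bound_of_continuousOn hd.continuousOn
  exact ⟨B, fun x hx y hy => hB (x, y) ⟨hx, hy⟩⟩

/-- the lower bound -/
theorem Gc.lower (h : Rel R) (hG : Gc R G l) {f : E →ₗ[ℝ] ℝ} {k s m : ℝ} {K : Set E}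
    (hK : Body K) (hm0 : 0 < m) (hm : Hyp R f k s G l m K) :
    volume K / ENNReal.ofReal (3 * m) ≤ thetaT K := by
  obtain ⟨B, hB⟩ := hG.bdd f k s hK.2.1
  have h1 := cov hK (pg_neg f k s) hB (by linarith : 0 < 3 * m / 2) (hG.tb h hm)
  have h2 : 2 * (3 * m / 2) = 3 * m := by ring
  rwa [h2] at h1

/-- the lattice covering given by an affinely regular hexagon with centre `c` -/
theorem Rel.hexa (h : Rel R) {K : Set E} (hc : Convex ℝ K) {c u : E} (hu : 0 < det2 u (R u))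
    (h1 : c + u ∈ K) (h2 : c + R u ∈ K) (h3 : c + R (R u) ∈ K) (h4 : c - u ∈ K) (h5 : c - R u ∈ K)
    (h6 : c - R (R u) ∈ K) : thetaL K ≤ volume K / ENNReal.ofReal (3 * det2 u (R u)) := by
  have e3 : c + (R u + u) = c - R (R u) := by
    rw [h.rr]
    abel
  have e3' : c - (R u + u) = c + R (R u) := by
    rw [h.rr]
    abel
  have k0 := det2_self' u
  have k1 := det2_self' (R u)
  have d12 : det2 u (R u + u) = det2 u (R u) := by
    rw [det2_add_right, k0, add_zero]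
  have d23 : det2 (R u + u) (R u) = det2 u (R u) := by
    rw [det2_add_left, k1, zero_add]
  obtain ⟨b, hb, hbv⟩ := hex_lat hc (c := c) (p₁ := u) (p₂ := R u + u) (p₃ := R u)
    h1 (by rw [e3]; exact h6) h2 h4 (by rw [e3']; exact h3) h5
    (by rw [d12]; exact hu.le) (by rw [d23]; exact hu.le) hu.le
    (by rw [d12, d23]; linarith)
  have hs : det2 u (R u + u) + det2 (R u + u) (R u) + det2 u (R u) = 3 * det2 u (R u) := by
    rw [d12, d23]
    ring
  calc thetaL K ≤ volume K / volume (parallelepiped b) := iInf₂_le b hb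
    _ = volume K / ENNReal.ofReal (3 * det2 u (R u)) := by rw [hbv, hs]

/-- equality -/
theorem Gc.eq (h : Rel R) (hG : Gc R G l) {f : E →ₗ[ℝ] ℝ} {k s : ℝ} {K : Set E} (hc : Convex ℝ K)
    (hk : IsCompact K) {c u : E} (hu : 0 < det2 u (R u))
    (h1 : c + u ∈ K) (h2 : c + R u ∈ K) (h3 : c + R (R u) ∈ K) (h4 : c - u ∈ K) (h5 : c - R u ∈ K)
    (h6 : c - R (R u) ∈ K) (hm : Hyp R f k s G l (det2 u (R u)) K) :
    thetaT K = volume K / ENNReal.ofReal (3 * det2 u (R u)) ∧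
      thetaL K = volume K / ENNReal.ofReal (3 * det2 u (R u)) := by
  have hK : Body K := ⟨hc, hk, ⟨_, h1⟩⟩
  have e1 := hG.lower h hK hu hm
  have e2 := h.hexa hc hu h1 h2 h3 h4 h5 h6
  have e3 := thetaT_le_thetaL K hK
  exact ⟨le_antisymm (e3.trans e2) e1, le_antisymm e2 (e1.trans e3)⟩

end NC31
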