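import Pool.Agent.W_fa9b59_c3.TriB

set_option autoImplicit false

/-!
# The ovals of constant product of the barycentric coordinates
-/

open MeasureTheory Metric Set

namespace NC31

open FB88 NT31 FB88Stmt

/-- three numbers -/
theorem amgm3 {a b c : ℝ} (ha : 0 ≤ a) (hb : 0 ≤ b) (hc : 0 ≤ c) :
    27 * (a * b * c) ≤ (a + b + c) ^ 3 := by
  nlinarith [mul_nonneg ha (sq_nonneg (b - c)), mul_nonneg hb (sq_nonneg (c - a)),
    mul_nonneg hc (sq_nonneg (a - b)), mul_nonneg (add_nonneg (add_nonneg ha hb) hc)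
      (add_nonneg (add_nonneg (sq_nonneg (a - b)) (sq_nonneg (b - c))) (sq_nonneg (c - a)))]

private theorem hold1 {x y z X Y Z c : ℝ} (hx : 0 ≤ x) (hy : 0 ≤ y) (hz : 0 ≤ z) (hX : 0 < X)
    (hY : 0 < Y) (hZ : 0 < Z) (h : c ≤ x * y * z) (hs : x / X + y / Y + z / Z ≤ 1) :
    27 * c ≤ X * Y * Z := by
  have h1 := amgm3 (div_nonneg hx hX.le) (div_nonneg hy hY.le) (div_nonneg hz hZ.le)
  have h0 : 0 ≤ x / X + y / Y + z / Z := by positivity
  have h2 : (x / X + y / Y + z / Z) ^ 3 ≤ 1 := pow_le_one₀ h0 hs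
  have h3 : x / X * (y / Y) * (z / Z) = x * y * z / (X * Y * Z) := by
    field_simp
  rw [h3] at h1
  have h4 : 27 * (x * y * z / (X * Y * Z)) ≤ 1 := h1.trans h2
  have hP : 0 < X * Y * Z := by positivity
  have h5 : 27 * (x * y * z) ≤ X * Y * Z := by
    have h6 : 27 * (x * y * z / (X * Y * Z)) = 27 * (x * y * z) / (X * Y * Z) := by ring
    rw [h6, div_le_one hP] at h4
    exact h4
  linarith

/-- the geometric mean of three numbers is concave -/
theorem hold3 {x₁ y₁ z₁ x₂ y₂ z₂ x₃ y₃ z₃ c : ℝ} (a1 : 0 ≤ x₁) (a2 : 0 ≤ y₁) (a3 : 0 ≤ z₁)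
    (b1 : 0 ≤ x₂) (b2 : 0 ≤ y₂) (b3 : 0 ≤ z₂) (c1 : 0 ≤ x₃) (c2 : 0 ≤ y₃) (c3 : 0 ≤ z₃)
    (h1 : c ≤ x₁ * y₁ * z₁) (h2 : c ≤ x₂ * y₂ * z₂) (h3 : c ≤ x₃ * y₃ * z₃) :
    27 * c ≤ (x₁ + x₂ + x₃) * (y₁ + y₂ + y₃) * (z₁ + z₂ + z₃) := by
  rcases le_or_gt c 0 with hc | hc
  · have : 0 ≤ (x₁ + x₂ + x₃) * (y₁ + y₂ + y₃) * (z₁ + z₂ + z₃) := by positivity
    linarith
  have p1 : 0 < x₁ * y₁ * z₁ := lt_of_lt_of_le hc h1
  have hx1 : x₁ ≠ 0 := by
    rintro rfl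
    simp at p1
  have hy1 : y₁ ≠ 0 := by
    rintro rfl
    simp at p1
  have hz1 : z₁ ≠ 0 := by
    rintro rfl
    simp at p1
  have hX : 0 < x₁ + x₂ + x₃ := by
    have := lt_of_le_of_ne a1 (Ne.symm hx1)
    positivity
  have hY : 0 < y₁ + y₂ + y₃ := by
    have := lt_of_le_of_ne a2 (Ne.symm hy1)
    positivity
  have hZ : 0 < z₁ + z₂ + z₃ := by
    have := lt_of_le_of_ne a3 (Ne.symm hz1)
    positivity
  set X := x₁ + x₂ + x₃ with hXd
  set Y := y₁ + y₂ + y₃ with hYd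
  set Z := z₁ + z₂ + z₃ with hZd
  have sx : x₁ / X + x₂ / X + x₃ / X = 1 := by
    rw [← add_div, ← add_div, ← hXd, div_self hX.ne']
  have sy : y₁ / Y + y₂ / Y + y₃ / Y = 1 := by
    rw [← add_div, ← add_div, ← hYd, div_self hY.ne']
  have sz : z₁ / Z + z₂ / Z + z₃ / Z = 1 := by
    rw [← add_div, ← add_div, ← hZd, div_self hZ.ne']
  by_cases k1 : x₁ / X + y₁ / Y + z₁ / Z ≤ 1
  · exact hold1 a1 a2 a3 hX hY hZ h1 k1
  by_cases k2 : x₂ / X + y₂ / Y + z₂ / Z ≤ 1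
  · exact hold1 b1 b2 b3 hX hY hZ h2 k2
  · refine hold1 c1 c2 c3 hX hY hZ h3 ?_
    push Not at k1 k2
    linarith

/-- barycentric coordinates as linear functionals on the differences -/
noncomputable def ba (P Q S : E) : E →ₗ[ℝ] ℝ where
  toFun z := det2 z (Q - S) / det2 (P - S) (Q - S)
  map_add' x y := by rw [det2_add_left, add_div]
  map_smul' s x := by
    rw [det2_smul_left, mul_div_assoc]
    rfl

noncomputable def bb (P Q S : E) : E →ₗ[ℝ] ℝ where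
  toFun z := det2 (P - S) z / det2 (P - S) (Q - S)
  map_add' x y := by rw [det2_add_right, add_div]
  map_smul' s x := by
    rw [det2_smul_right, mul_div_assoc]
    rfl

/-- the affine map of order three, linear part -/
noncomputable def rot (P Q S : E) : E →ₗ[ℝ] E :=
  (-(ba P Q S) - bb P Q S).smulRight P + (ba P Q S).smulRight Q + (bb P Q S).smulRight S

theorem ba_eq {P Q S : E} (hd : det2 (P - S) (Q - S) ≠ 0) {a b : ℝ} :
    ba P Q S (a • (P - S) + b • (Q - S)) = a := by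
  change det2 (a • (P - S) + b • (Q - S)) (Q - S) / det2 (P - S) (Q - S) = a
  rw [det2_add_left, det2_smul_left, det2_smul_left, det2_self', mul_zero, add_zero,
    mul_div_assoc, div_self hd, mul_one]

theorem bb_eq {P Q S : E} (hd : det2 (P - S) (Q - S) ≠ 0) {a b : ℝ} :
    bb P Q S (a • (P - S) + b • (Q - S)) = b := by
  change det2 (P - S) (a • (P - S) + b • (Q - S)) / det2 (P - S) (Q - S) = b
  rw [det2_add_right, det2_smul_right, det2_smul_right, det2_self', mul_zero, zero_add,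
    mul_div_assoc, div_self hd, mul_one]

theorem rot_eq {P Q S : E} (hd : det2 (P - S) (Q - S) ≠ 0) {a b : ℝ} :
    rot P Q S (a • (P - S) + b • (Q - S)) = (-a - b) • (P - S) + a • (Q - S) := by
  unfold rot
  simp only [LinearMap.add_apply, LinearMap.smulRight_apply, LinearMap.sub_apply,
    LinearMap.neg_apply, ba_eq hd, bb_eq hd]
  module

theorem exp_eq {P Q S : E} (hd : det2 (P - S) (Q - S) ≠ 0) (z : E) :
    z = ba P Q S z • (P - S) + bb P Q S z • (Q - S) := by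
  have h1 : ba P Q S z = det2 z (Q - S) / det2 (P - S) (Q - S) := rfl
  have h2 : bb P Q S z = det2 (P - S) z / det2 (P - S) (Q - S) := rfl
  rw [h1, h2]
  have h3 : det2 (P - S) (Q - S) • z = det2 z (Q - S) • (P - S) + det2 (P - S) z • (Q - S) := by
    ext i
    fin_cases i
    · simp only [det2, PiLp.add_apply, PiLp.smul_apply, PiLp.sub_apply, smul_eq_mul, Fin.zero_eta]
      ring
    · simp only [det2, PiLp.add_apply, PiLp.smul_apply, PiLp.sub_apply, smul_eq_mul, Fin.mk_one]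
      ring
  have h4 : z = (det2 (P - S) (Q - S))⁻¹ • (det2 (P - S) (Q - S) • z) := by
    rw [smul_smul, inv_mul_cancel₀ hd, one_smul]
  conv_lhs => rw [h4, h3]
  rw [smul_add, smul_smul, smul_smul, div_eq_inv_mul, div_eq_inv_mul]

theorem rot_rel {P Q S : E} (hd : det2 (P - S) (Q - S) ≠ 0) : Rel (rot P Q S) := by
  intro z
  rw [exp_eq hd z, rot_eq hd, rot_eq hd]
  module

theorem qf_rot {P Q S : E} (hd : det2 (P - S) (Q - S) ≠ 0) (a b : ℝ) :
    qf (rot P Q S) (a • (P - S) + b • (Q - S)) =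
      det2 (P - S) (Q - S) * (a ^ 2 + a * b + b ^ 2) := by
  unfold qf
  rw [rot_eq hd]
  simp only [det2_add_left, det2_add_right, det2_smul_left, det2_smul_right, det2_self']
  rw [det2_swap (Q - S) (P - S)]
  ring

theorem e2_rot {P Q S : E} (hd : det2 (P - S) (Q - S) ≠ 0) (a b : ℝ) :
    e2 (rot P Q S) (ba P Q S) (a • (P - S) + b • (Q - S)) = a ^ 2 + a * b + b ^ 2 := by
  unfold e2
  rw [rot_eq hd, ba_eq hd, ba_eq hd]
  ring

theorem e3_rot {P Q S : E} (hd : det2 (P - S) (Q - S) ≠ 0) (a b : ℝ) :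
    e3 (rot P Q S) (ba P Q S) (a • (P - S) + b • (Q - S)) = a * b * (-a - b) := by
  unfold e3
  rw [rot_eq hd, rot_eq hd, ba_eq hd, ba_eq hd, ba_eq hd]
  ring

/-- the average of three points in barycentric coordinates -/
theorem avg_eq {P Q S : E} (hd : det2 (P - S) (Q - S) ≠ 0) {p₁ q₁ r₁ p₂ q₂ r₂ p₃ q₃ r₃ : ℝ}
    (h1 : p₁ + q₁ + r₁ = 1) (h2 : p₂ + q₂ + r₂ = 1) (h3 : p₃ + q₃ + r₃ = 1) :
    (1 / 3 : ℝ) • ((p₁ • P + q₁ • Q + r₁ • S) + rot P Q S (p₂ • P + q₂ • Q + r₂ • S) +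
      rot P Q S (rot P Q S (p₃ • P + q₃ • Q + r₃ • S))) =
    ((p₁ + r₂ + q₃ - 1) / 3) • (P - S) + ((q₁ + p₂ + r₃ - 1) / 3) • (Q - S) := by
  have hr := rot_rel hd
  set c : E := (1 / 3 : ℝ) • (P + Q + S) with hc
  have e1 : ∀ p q r : ℝ, p + q + r = 1 → p • P + q • Q + r • S =
      c + ((p - 1 / 3) • (P - S) + (q - 1 / 3) • (Q - S)) := by
    intro p q r h
    have : r = 1 - p - q := by linarith
    rw [this, hc]
    module
  rw [e1 _ _ _ h1, e1 _ _ _ h2, e1 _ _ _ h3]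
  have hz' : rot P Q S (rot P Q S c) = -rot P Q S c - c := hr.rr c
  have m1 : ∀ w : E, rot P Q S (c + w) = rot P Q S c + rot P Q S w := fun w => map_add _ c w
  have m2 : ∀ w : E, rot P Q S (rot P Q S c + w) =
      rot P Q S (rot P Q S c) + rot P Q S w := fun w => map_add _ _ w
  rw [m1, m1, m2, rot_eq hd, rot_eq hd, rot_eq hd, hz']
  have e2 : r₁ = 1 - p₁ - q₁ := by linarith
  have e3 : r₂ = 1 - p₂ - q₂ := by linarith
  have e4 : r₃ = 1 - p₃ - q₃ := by linarith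
  rw [e3, e4]
  module

/-- the other average -/
theorem avg_eq' {P Q S : E} (hd : det2 (P - S) (Q - S) ≠ 0) {p₁ q₁ r₁ p₂ q₂ r₂ p₃ q₃ r₃ : ℝ}
    (h1 : p₁ + q₁ + r₁ = 1) (h2 : p₂ + q₂ + r₂ = 1) (h3 : p₃ + q₃ + r₃ = 1) :
    (1 / 3 : ℝ) • ((p₁ • P + q₁ • Q + r₁ • S) +
      rot P Q S (rot P Q S (p₂ • P + q₂ • Q + r₂ • S)) + rot P Q S (p₃ • P + q₃ • Q + r₃ • S)) =
    ((p₁ + r₃ + q₂ - 1) / 3) • (P - S) + ((q₁ + p₃ + r₂ - 1) / 3) • (Q - S) := by
  rw [← avg_eq hd h1 h3 h2]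
  congr 1
  abel

theorem gc_zero {R : E →ₗ[ℝ] E} : Gc R (fun _ => 0) 0 :=
  ⟨convexOn_const 0 convex_univ, fun _ => rfl, fun z => by simp⟩

/-- the cubic inequality in the triangle -/
theorem cub_le {a b : ℝ} (ha : -(1 / 3) ≤ a) (hb : -(1 / 3) ≤ b) (hc : -(1 / 3) ≤ -a - b) :
    3 * (a * b * (-a - b)) ≤ a ^ 2 + a * b + b ^ 2 := by
  have key : ∀ {x y : ℝ}, -(1 / 3) ≤ x → -(1 / 3) ≤ y → x ≤ 0 → y ≤ 0 →
      3 * (x * y * (-x - y)) ≤ x ^ 2 + x * y + y ^ 2 := by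
    intro x y hx hy hx0 hy0
    have h1 : 0 ≤ x * y := mul_nonneg_of_nonpos_of_nonpos hx0 hy0
    have h2 : x * y * (-x - y) ≤ x * y * (2 / 3) := mul_le_mul_of_nonneg_left (by linarith) h1
    nlinarith [sq_nonneg (x - y)]
  rcases le_total a 0 with h1 | h1
  · rcases le_total b 0 with h2 | h2
    · exact key ha hb h1 h2
    · rcases le_total (-a - b) 0 with h3 | h3
      · have := key ha hc h1 h3
        nlinarith
      · have : a * b * (-a - b) ≤ 0 :=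
          mul_nonpos_of_nonpos_of_nonneg (mul_nonpos_of_nonpos_of_nonneg h1 h2) h3
        nlinarith [sq_nonneg (a + b), sq_nonneg a, sq_nonneg b]
  · rcases le_total b 0 with h2 | h2
    · rcases le_total (-a - b) 0 with h3 | h3
      · have := key hb hc h2 h3
        nlinarith
      · have : a * b * (-a - b) ≤ 0 :=
          mul_nonpos_of_nonpos_of_nonneg (mul_nonpos_of_nonneg_of_nonpos h1 h2) h3
        nlinarith [sq_nonneg (a + b), sq_nonneg a, sq_nonneg b]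
    · have : a * b * (-a - b) ≤ 0 :=
        mul_nonpos_of_nonneg_of_nonpos (mul_nonneg h1 h2) (by linarith)
      nlinarith [sq_nonneg (a + b), sq_nonneg a, sq_nonneg b]

end NC31
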