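import Pool.Agent.W_fa9b59_c3.TriC
import Pool.Agent.W_fa9b59_h31.MonoT

set_option autoImplicit false

/-!
# Bodies between an affinely regular hexagon and an oval of constant product
-/

open MeasureTheory Metric Set

namespace NC31

open FB88 NT31 FB88Stmt

/-- points of the triangle with product of the barycentric coordinates at least `c` -/
def Ov (P Q S : E) (c : ℝ) : Set E :=
  {x | ∃ p q r : ℝ, 0 ≤ p ∧ 0 ≤ q ∧ 0 ≤ r ∧ p + q + r = 1 ∧ c ≤ p * q * r ∧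
    x = p • P + q • Q + r • S}

theorem ov_hyp {P Q S : E} (hd : 0 < det2 (P - S) (Q - S)) {t : ℝ} {K : Set E}
    (hK : K ⊆ Ov P Q S (1 / 27 - t ^ 2 / 3)) :
    Hyp (rot P Q S) (ba P Q S) (3 * det2 (P - S) (Q - S)) 0 (fun _ => 0) 0
      (det2 (P - S) (Q - S) * t ^ 2) K := by
  intro x hx y hy z hz
  obtain ⟨p₁, q₁, r₁, a1, a2, a3, a4, a5, rfl⟩ := hK hx
  obtain ⟨p₂, q₂, r₂, b1, b2, b3, b4, b5, rfl⟩ := hK hy
  obtain ⟨p₃, q₃, r₃, c1, c2, c3, c4, c5, rfl⟩ := hK hz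
  have hh := hold3 a1 a2 a3 b2 b3 b1 c3 c1 c2 a5 (c := 1 / 27 - t ^ 2 / 3)
    (by linarith [mul_comm (q₂ * r₂) p₂, mul_assoc p₂ q₂ r₂])
    (by linarith [mul_comm (r₃ * p₃) q₃, mul_assoc q₃ r₃ p₃, mul_comm p₃ (q₃ * r₃),
      mul_comm (p₃ * q₃) r₃, mul_assoc r₃ p₃ q₃])
  unfold Hin
  rw [avg_eq hd.ne' a4 b4 c4, avg_eq' hd.ne' a4 b4 c4, qf_rot hd.ne', qf_rot hd.ne',
    e2_rot hd.ne', e2_rot hd.ne', e3_rot hd.ne', e3_rot hd.ne']
  have gb1 : -(1 / 3) ≤ (p₁ + r₂ + q₃ - 1) / 3 := by linarith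
  have gb2 : -(1 / 3) ≤ (q₁ + p₂ + r₃ - 1) / 3 := by linarith
  have gb3 : -(1 / 3) ≤ -((p₁ + r₂ + q₃ - 1) / 3) - (q₁ + p₂ + r₃ - 1) / 3 := by linarith
  have hcub := cub_le gb1 gb2 gb3
  generalize (p₁ + r₂ + q₃ - 1) / 3 = a' at *
  generalize (q₁ + p₂ + r₃ - 1) / 3 = b' at *
  set a : ℝ := (p₁ + r₃ + q₂ - 1) / 3 with ha
  set b : ℝ := (q₁ + p₃ + r₂ - 1) / 3 with hb
  have ea : p₁ + q₂ + r₃ = 3 * a + 1 := by rw [ha]; ring
  have eb : q₁ + r₂ + p₃ = 3 * b + 1 := by rw [hb]; ring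
  have ec : r₁ + p₂ + q₃ = 3 * (-a - b) + 1 := by
    have : r₁ + p₂ + q₃ = 3 - (p₁ + q₂ + r₃) - (q₁ + r₂ + p₃) := by linarith
    rw [this, ea, eb]
    ring
  rw [ea, eb, ec] at hh
  have h1 : a ^ 2 + a * b + b ^ 2 - 3 * (a * b * (-a - b)) ≤ t ^ 2 := by nlinarith
  have h2 := mul_le_mul_of_nonneg_left h1 hd.le
  have h3 := mul_le_mul_of_nonneg_left hcub hd.le
  linarith

/-- the six points -/
def Hexa (P Q S : E) (t : ℝ) (K : Set E) : Prop :=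
  (1 / 3 + t) • P + (1 / 3 : ℝ) • Q + (1 / 3 - t) • S ∈ K ∧
  (1 / 3 + t) • Q + (1 / 3 : ℝ) • S + (1 / 3 - t) • P ∈ K ∧
  (1 / 3 + t) • S + (1 / 3 : ℝ) • P + (1 / 3 - t) • Q ∈ K ∧
  (1 / 3 - t) • P + (1 / 3 : ℝ) • Q + (1 / 3 + t) • S ∈ K ∧
  (1 / 3 - t) • Q + (1 / 3 : ℝ) • S + (1 / 3 + t) • P ∈ K ∧
  (1 / 3 - t) • S + (1 / 3 : ℝ) • P + (1 / 3 + t) • Q ∈ K

/-- equality from the hypothesis `Hyp` and the six points -/
theorem hexa_pos {P Q S : E} (hd : 0 < det2 (P - S) (Q - S)) {t k s : ℝ} (ht : 0 < t) {K : Set E}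
    (hc : Convex ℝ K) (hk : IsCompact K) (hH : Hexa P Q S t K)
    (hK : Hyp (rot P Q S) (ba P Q S) k s (fun _ => 0) 0 (det2 (P - S) (Q - S) * t ^ 2) K) :
    thetaT K = volume K / ENNReal.ofReal (3 * t ^ 2 * det2 (P - S) (Q - S)) ∧
      thetaL K = volume K / ENNReal.ofReal (3 * t ^ 2 * det2 (P - S) (Q - S)) := by
  have hr := rot_rel hd.ne'
  obtain ⟨h1, h2, h3, h4, h5, h6⟩ := hH
  set u : E := t • (P - S) + (0 : ℝ) • (Q - S) with hu
  have e1 : rot P Q S u = (-t) • (P - S) + t • (Q - S) := by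
    rw [hu, rot_eq hd.ne']
    module
  have e2 : rot P Q S (rot P Q S u) = (0 : ℝ) • (P - S) + (-t) • (Q - S) := by
    rw [e1, rot_eq hd.ne']
    module
  have hq : det2 u (rot P Q S u) = det2 (P - S) (Q - S) * t ^ 2 := by
    have := qf_rot hd.ne' t 0
    unfold qf at this
    rw [← hu] at this
    rw [this]
    ring
  have hq0 : 0 < det2 u (rot P Q S u) := by
    rw [hq]
    positivity
  have key := gc_zero.eq hr (f := ba P Q S) (k := k) (s := s) hc hk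
    (c := (1 / 3 : ℝ) • (P + Q + S)) hq0
    (by convert h1 using 1; rw [hu]; module)
    (by rw [e1]; convert h2 using 1; module)
    (by rw [e2]; convert h3 using 1; module)
    (by convert h4 using 1; rw [hu]; module)
    (by rw [e1]; convert h5 using 1; module)
    (by rw [e2]; convert h6 using 1; module)
    (by rw [hq]; exact hK)
  rw [hq] at key
  have e3 : 3 * (det2 (P - S) (Q - S) * t ^ 2) = 3 * t ^ 2 * det2 (P - S) (Q - S) := by ring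
  rwa [e3] at key

theorem ov_pos {P Q S : E} (hd : 0 < det2 (P - S) (Q - S)) {t : ℝ} (ht : 0 < t) {K : Set E}
    (hc : Convex ℝ K) (hk : IsCompact K) (hH : Hexa P Q S t K)
    (hK : K ⊆ Ov P Q S (1 / 27 - t ^ 2 / 3)) :
    thetaT K = volume K / ENNReal.ofReal (3 * t ^ 2 * det2 (P - S) (Q - S)) ∧
      thetaL K = volume K / ENNReal.ofReal (3 * t ^ 2 * det2 (P - S) (Q - S)) :=
  hexa_pos hd ht hc hk hH (ov_hyp hd hK)

end NC31
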