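import Pool.Agent.W_fa9b59_c3.TriD

set_option autoImplicit false

/-!
# Assembly
-/

open MeasureTheory Metric Set

namespace NC31

open FB88 NT31 FB88Stmt

theorem hexa_swap {P Q S : E} {t : ℝ} {K : Set E} (h : Hexa P Q S t K) : Hexa Q P S t K := by
  obtain ⟨h1, h2, h3, h4, h5, h6⟩ := h
  refine ⟨?_, ?_, ?_, ?_, ?_, ?_⟩
  · convert h6 using 1
    module
  · convert h5 using 1
    module
  · convert h4 using 1
    module
  · convert h3 using 1
    module
  · convert h2 using 1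
    module
  · convert h1 using 1
    module

theorem ov_swap {P Q S : E} {c : ℝ} : Ov P Q S c ⊆ Ov Q P S c := by
  rintro x ⟨p, q, r, h1, h2, h3, h4, h5, rfl⟩
  refine ⟨q, p, r, h2, h1, h3, by linarith, by linarith [mul_comm p q], ?_⟩
  rw [add_comm (p • P) (q • Q)]

theorem ov_all {P Q S : E} (hd : det2 (P - S) (Q - S) ≠ 0) {t : ℝ} (ht : 0 < t) {K : Set E}
    (hc : Convex ℝ K) (hk : IsCompact K) (hH : Hexa P Q S t K)
    (hK : K ⊆ Ov P Q S (1 / 27 - t ^ 2 / 3)) :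
    thetaT K = thetaL K ∧
      thetaL K = volume K / ENNReal.ofReal (3 * t ^ 2 * |det2 (P - S) (Q - S)|) := by
  rcases lt_or_gt_of_ne hd with h | h
  · have h' : 0 < det2 (Q - S) (P - S) := by
      rw [det2_swap]
      linarith
    have key := ov_pos h' ht hc hk (hexa_swap hH) (hK.trans ov_swap)
    have e : det2 (Q - S) (P - S) = |det2 (P - S) (Q - S)| := by
      rw [abs_of_neg h, det2_swap]
    rw [e] at key
    exact ⟨key.1.trans key.2.symm, key.2⟩
  · have key := ov_pos h ht hc hk hH hK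
    rw [← abs_of_pos h] at key
    exact ⟨key.1.trans key.2.symm, key.2⟩

/-- the general theorem -/
theorem main_c3 {R : E →ₗ[ℝ] E} {f : E →ₗ[ℝ] ℝ} {k s l m : ℝ} {G : E → ℝ} {K : Set E}
    (hR : ∀ z, R (R z) + R z + z = 0) (hG : ConvexOn ℝ univ G) (hGR : ∀ z, G (R z) = G z)
    (hGb : ∀ z, G z + G (-z) ≤ 2 * l * det2 z (R z)) (hc : Convex ℝ K) (hk : IsCompact K)
    (hn : K.Nonempty) (hm : 0 < m) (hH : Hyp R f k s G l m K) :
    volume K / ENNReal.ofReal (3 * m) ≤ thetaT K ∧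
      ∀ c u : E, det2 u (R u) = m → c + u ∈ K → c + R u ∈ K → c + R (R u) ∈ K → c - u ∈ K →
        c - R u ∈ K → c - R (R u) ∈ K →
        thetaT K = thetaL K ∧ thetaL K = volume K / ENNReal.ofReal (3 * m) := by
  have hg : Gc R G l := ⟨hG, hGR, hGb⟩
  refine ⟨hg.lower hR ⟨hc, hk, hn⟩ hm hH, ?_⟩
  intro c u hu h1 h2 h3 h4 h5 h6
  have key := hg.eq hR (f := f) (k := k) (s := s) hc hk (c := c) (u := u) (by rw [hu]; exact hm) h1 h2 h3
    h4 h5 h6 (by rw [hu]; exact hH)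
  rw [hu] at key
  exact ⟨key.1.trans key.2.symm, key.2⟩

end NC31
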