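import Pool.Agent.W_fa9b59_c3.TriE

set_option autoImplicit false

/-!
# Equilateral triangles
-/

open MeasureTheory Metric Set
open scoped RealInnerProductSpace

namespace NC31

open FB88 NT31 FB88Stmt

/-- distances in barycentric coordinates -/
theorem bary_dist {P Q S : E} {w : ℝ} (h1 : dist P Q = w) (h2 : dist Q S = w)
    (h3 : dist S P = w) {p q r : ℝ} (hs : p + q + r = 1) :
    dist (p • P + q • Q + r • S) P ^ 2 = w ^ 2 * (q ^ 2 + q * r + r ^ 2) := by
  have e : p • P + q • Q + r • S - P = q • (Q - P) + r • (S - P) := by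
    have : p = 1 - q - r := by linarith
    rw [this]
    module
  have n1 : ‖Q - P‖ = w := by rw [← h1, dist_comm, dist_eq_norm]
  have n2 : ‖S - P‖ = w := by rw [← h3, dist_eq_norm]
  have n3 : ‖(Q - P) - (S - P)‖ = w := by
    rw [← h2, dist_eq_norm]
    congr 1
    abel
  have hi : ⟪Q - P, S - P⟫ = w ^ 2 / 2 := by
    have := norm_sub_sq_real (Q - P) (S - P)
    rw [n1, n2, n3] at this
    linarith
  rw [dist_eq_norm, e, norm_add_sq_real, norm_smul, norm_smul, inner_smul_left, inner_smul_right,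
    hi, mul_pow, mul_pow, n1, n2]
  simp only [Real.norm_eq_abs, sq_abs, conj_trivial]
  ring

theorem equi_det {P Q S : E} {w : ℝ} (hw : 0 < w) (h1 : dist P Q = w) (h2 : dist Q S = w)
    (h3 : dist S P = w) : det2 (P - S) (Q - S) ^ 2 = 3 / 4 * w ^ 4 := by
  have n1 : ‖P - S‖ ^ 2 = w ^ 2 := by rw [← h3, dist_comm, dist_eq_norm]
  have n2 : ‖Q - S‖ ^ 2 = w ^ 2 := by rw [← h2, dist_eq_norm]
  have n3 : ‖(P - S) - (Q - S)‖ ^ 2 = w ^ 2 := by
    rw [← h1, dist_eq_norm]
    congr 2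
    abel
  rw [EuclideanSpace.norm_sq_eq, Fin.sum_univ_two] at n1 n2 n3
  simp only [Real.norm_eq_abs, sq_abs] at n1 n2 n3
  have e0 : ((P - S) - (Q - S)) 0 = (P - S) 0 - (Q - S) 0 := rfl
  have e1 : ((P - S) - (Q - S)) 1 = (P - S) 1 - (Q - S) 1 := rfl
  rw [e0, e1] at n3
  unfold det2
  generalize (P - S) 0 = a at *
  generalize (P - S) 1 = b at *
  generalize (Q - S) 0 = c at *
  generalize (Q - S) 1 = d at *
  have hi : a * c + b * d = w ^ 2 / 2 := by nlinarith
  have : (a * d - b * c) ^ 2 = (a ^ 2 + b ^ 2) * (c ^ 2 + d ^ 2) - (a * c + b * d) ^ 2 := by ring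
  rw [this, n1, n2, hi]
  ring

end NC31
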