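import Mathlib

set_option autoImplicit false

/-!
# The inequality for the three-arc bodies inside the hexagonal disc

`x = 3 r ^ 2`, `y = 3 T ^ 2` are the quadratic forms of the two Fourier coefficients, `A`, `B` the
cubic forms.
-/

namespace NC31

theorem sa_nine {r T : ℝ} (h : r ^ 2 + T ^ 2 ≤ 1 / 3) :
    9 * r ^ 2 * (r + T) ≤ 2 := by
  have h1 : 0 ≤ r ^ 2 + T ^ 2 := by positivity
  have h3 : (r ^ 2 + T ^ 2) ^ 3 ≤ (1 / 3) ^ 3 := pow_le_pow_left₀ h1 h 3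
  have h4 : (9 * r ^ 2 * (r + T)) ^ 2 ≤ 2 ^ 2 := by
    have h5 : 0 ≤ r ^ 4 * (r - 3 * T) ^ 2 + 12 * r ^ 2 * T ^ 4 + 4 * T ^ 6 := by positivity
    nlinarith
  exact (abs_le_of_sq_le_sq' h4 (by norm_num)).2

theorem sa_cube {r T : ℝ} (hr : 0 ≤ r) (hT : 0 ≤ T) (h : r ^ 2 + T ^ 2 ≤ 1 / 3) :
    r ^ 3 + T ^ 3 ≤ 1 / 5 := by
  have h1 : r ≤ 3 / 5 := by nlinarith
  have h2 : T ≤ 3 / 5 := by nlinarith
  nlinarith [mul_nonneg (sq_nonneg r) (sub_nonneg.2 h1), mul_nonneg (sq_nonneg T) (sub_nonneg.2 h2)]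

theorem sa_prod {r T : ℝ} (hT : 0 ≤ T) (h : r ^ 2 + T ^ 2 ≤ 1 / 3) :
    r ^ 2 * T ≤ 1 / 5 := by
  have h2 : T ≤ 3 / 5 := by nlinarith
  nlinarith [mul_nonneg (sq_nonneg T) hT, mul_nonneg (sub_nonneg.2 h) hT]

/-- the second polynomial is nonnegative -/
theorem sa_q {r T A B : ℝ} (hr : 0 ≤ r) (hT : 0 ≤ T) (h : r ^ 2 + T ^ 2 ≤ 1 / 3)
    (hA1 : -(2 * r ^ 3) ≤ A) (hA2 : A ≤ 2 * r ^ 3) (hB1 : -(2 * T ^ 3) ≤ B) (hB2 : B ≤ 2 * T ^ 3) :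
    0 ≤ 2 * (1 - 3 * r ^ 2 + 3 * T ^ 2) + 3 * (3 * r ^ 2 + 12 * T ^ 2 - 1) * A -
      3 * (12 * r ^ 2 + 3 * T ^ 2 - 1) * B := by
  have h9 := sa_nine h
  have hc := sa_cube hr hT h
  have hp := sa_prod hT h
  have hr3 : 0 ≤ r ^ 3 := by positivity
  have hT3 : 0 ≤ T ^ 3 := by positivity
  have hT2 : 0 ≤ T ^ 2 := by positivity
  have hrT : 0 ≤ r ^ 2 * T := by positivity
  have hY : 0 ≤ 1 - 3 * r ^ 2 - 3 * T ^ 2 := by linarith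
  rcases le_total 0 (3 * r ^ 2 + 12 * T ^ 2 - 1) with ha | ha <;>
  rcases le_total 0 (12 * r ^ 2 + 3 * T ^ 2 - 1) with hb | hb
  · have k1 := mul_le_mul_of_nonneg_left hA1 ha
    have k2 := mul_le_mul_of_nonneg_left hB2 hb
    have k3 : 0 ≤ T ^ 2 * (2 - 9 * r ^ 2 * (r + T)) := mul_nonneg hT2 (by linarith)
    have k4 : 0 ≤ (1 - 3 * r ^ 2 - 3 * T ^ 2) * (2 + 6 * r ^ 3 + 6 * T ^ 3) :=
      mul_nonneg hY (by linarith)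
    linarith
  · have k1 := mul_le_mul_of_nonneg_left hA1 ha
    have k2 := mul_le_mul_of_nonneg_left hB1 (neg_nonneg.2 hb)
    have k3 : 0 ≤ T ^ 2 * (12 - 54 * r ^ 3 + 54 * (r ^ 2 * T)) := mul_nonneg hT2 (by linarith)
    have k4 : 0 ≤ (1 - 3 * r ^ 2 - 3 * T ^ 2) * (2 + 6 * r ^ 3 - 6 * T ^ 3) :=
      mul_nonneg hY (by linarith)
    linarith
  · have k1 := mul_le_mul_of_nonneg_left hA2 (neg_nonneg.2 ha)
    have k2 := mul_le_mul_of_nonneg_left hB2 hb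
    have k3 : 0 ≤ T ^ 2 * (12 + 54 * r ^ 3 - 54 * (r ^ 2 * T)) := mul_nonneg hT2 (by linarith)
    have k4 : 0 ≤ (1 - 3 * r ^ 2 - 3 * T ^ 2) * (2 - 6 * r ^ 3 + 6 * T ^ 3) :=
      mul_nonneg hY (by linarith)
    linarith
  · have k1 := mul_le_mul_of_nonneg_left hA2 (neg_nonneg.2 ha)
    have k2 := mul_le_mul_of_nonneg_left hB1 (neg_nonneg.2 hb)
    have k3 : 0 ≤ T ^ 2 * (12 + 54 * r ^ 3 + 54 * (r ^ 2 * T)) := mul_nonneg hT2 (by linarith)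
    have k4 : 0 ≤ (1 - 3 * r ^ 2 - 3 * T ^ 2) * (2 - 6 * r ^ 3 - 6 * T ^ 3) :=
      mul_nonneg hY (by linarith)
    linarith

/-- the case of a vertex outside of the central triangle -/
theorem sa_three {m r T A B : ℝ} (hm : 0 ≤ m) (hm1 : m ≤ 1 / 3) (hT : 0 ≤ T)
    (h : r ^ 2 + T ^ 2 ≤ 1 / 3) (hA1 : -(2 * r ^ 3) ≤ A)
    (hA : (1 + m) * (3 * r ^ 2 - (1 + m) ^ 2) ≤ A) (hB : B ≤ 2 * T ^ 3) :
    0 ≤ (1 - 3 * r ^ 2 - 3 * T ^ 2) * (1 - 3 * r ^ 2 + 3 * T ^ 2 + A - B) +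
      m * (2 * (1 - 3 * r ^ 2 + 3 * T ^ 2) + 3 * (3 * r ^ 2 + 12 * T ^ 2 - 1) * A -
      3 * (12 * r ^ 2 + 3 * T ^ 2 - 1) * B) := by
  have h9 := sa_nine h
  have hT2 : 0 ≤ T ^ 2 := by positivity
  have hT3 : 0 ≤ T ^ 3 := by positivity
  have hT1 : T ≤ 3 / 5 := by nlinarith
  have hx : r ^ 2 = (1 - (1 - 3 * r ^ 2 - 3 * T ^ 2) - 3 * T ^ 2) / 3 := by ring
  have hY : 0 ≤ 1 - 3 * r ^ 2 - 3 * T ^ 2 := by linarith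
  obtain ⟨Y, hYd⟩ : ∃ Y : ℝ, Y = 1 - 3 * r ^ 2 - 3 * T ^ 2 := ⟨_, rfl⟩
  rw [← hYd] at hY
  have hr2 : 0 ≤ r ^ 2 := sq_nonneg r
  have hrr : 3 * r ^ 2 = 1 - Y - 3 * T ^ 2 := by linarith
  -- use both lower bounds of A
  have k1 := mul_le_mul_of_nonneg_left hA (mul_nonneg hY (by linarith : 0 ≤ 1 - 3 * m))
  have k2 := mul_le_mul_of_nonneg_left hA1 (mul_nonneg hm (by positivity : 0 ≤ 27 * T ^ 2))
  have k3 := mul_le_mul_of_nonneg_left hB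
    (by positivity : 0 ≤ Y * 0 + 27 * m * r ^ 2)
  have k4 := mul_le_mul_of_nonneg_left hB (mul_nonneg hY (by linarith : 0 ≤ 1 - 3 * m))
  have k5 : 0 ≤ m * (T ^ 2 * (2 - 9 * r ^ 2 * (r + T))) :=
    mul_nonneg hm (mul_nonneg hT2 (by linarith))
  have k6 : 0 ≤ Y * (Y * (2 * m + 3 * m ^ 2) + T ^ 2 * (3 + 6 * m + 9 * m ^ 2) -
      2 * T ^ 3 * (1 - 3 * m) + 3 * m ^ 2 + 8 * m ^ 3 + 3 * m ^ 4) := by
    refine mul_nonneg hY ?_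
    have e1 : 2 * T ^ 3 * (1 - 3 * m) ≤ 2 * T ^ 2 := by
      have : T ^ 3 ≤ T ^ 2 := by nlinarith
      nlinarith
    have e2 : 0 ≤ Y * (2 * m + 3 * m ^ 2) := by positivity
    have e3 : 0 ≤ 3 * m ^ 2 + 8 * m ^ 3 + 3 * m ^ 4 := by positivity
    have e4 : 0 ≤ T ^ 2 * (1 + 6 * m + 9 * m ^ 2) := by positivity
    linarith
  have e : (1 - 3 * r ^ 2 - 3 * T ^ 2) * (1 - 3 * r ^ 2 + 3 * T ^ 2 + A - B) +
      m * (2 * (1 - 3 * r ^ 2 + 3 * T ^ 2) + 3 * (3 * r ^ 2 + 12 * T ^ 2 - 1) * A -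
      3 * (12 * r ^ 2 + 3 * T ^ 2 - 1) * B) =
      Y * (Y + 6 * T ^ 2) + m * (12 * T ^ 2 + 2 * Y) + Y * (1 - 3 * m) * A + m * (27 * T ^ 2) * A -
      (27 * m * r ^ 2) * B - Y * (1 - 3 * m) * B := by
    rw [hYd]
    ring
  rw [e]
  have e' : 6 * (m * (T ^ 2 * (2 - 9 * r ^ 2 * (r + T)))) +
      Y * (Y * (2 * m + 3 * m ^ 2) + T ^ 2 * (3 + 6 * m + 9 * m ^ 2) -
      2 * T ^ 3 * (1 - 3 * m) + 3 * m ^ 2 + 8 * m ^ 3 + 3 * m ^ 4) =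
      Y * (Y + 6 * T ^ 2) + m * (12 * T ^ 2 + 2 * Y) +
      Y * (1 - 3 * m) * ((1 + m) * (3 * r ^ 2 - (1 + m) ^ 2)) + m * (27 * T ^ 2) * (-(2 * r ^ 3)) -
      (27 * m * r ^ 2) * (2 * T ^ 3) - Y * (1 - 3 * m) * (2 * T ^ 3) := by
    rw [hrr]
    ring
  linarith

end NC31
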