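import Mathlib

set_option autoImplicit false

/-!
# The inequality for the three-arc bodies outside of the hexagonal disc

`n = 1 - mu`, where `-mu` is a lower bound of the coordinates of the two Fourier coefficients.
-/

namespace NC31

theorem sb_c1 {n T : ℝ} (hn : 0 ≤ n) (hn6 : n ≤ 3 / 5) (hT1 : T ≤ 1 - n)
    (h : 1 ≤ 3 * (1 - n) ^ 2 + 3 * T ^ 2) :
    0 ≤ n ^ 2 * (3 - 8 * n + 3 * n ^ 2) + T ^ 2 * (3 + 21 * n - 18 * n ^ 2) -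
      T ^ 3 * (2 + 24 * n) := by
  have hn2 : 0 ≤ n ^ 2 := sq_nonneg n
  have e : n ^ 2 * (3 - 8 * n + 3 * n ^ 2) + T ^ 2 * (3 + 21 * n - 18 * n ^ 2) -
      T ^ 3 * (2 + 24 * n) = n ^ 2 * (3 - 8 * n + 3 * n ^ 2) + T ^ 2 * (1 - n + 6 * n ^ 2) +
      (1 - n - T) * (T ^ 2 * (2 + 24 * n)) := by ring
  have k1 : 0 ≤ (1 - n - T) * (T ^ 2 * (2 + 24 * n)) :=
    mul_nonneg (by linarith) (by positivity)
  have k2 : 0 ≤ 1 - n + 6 * n ^ 2 := by linarith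
  have k3 := mul_nonneg (sq_nonneg T) k2
  rw [e]
  rcases le_total n (45 / 100) with hc | hc
  · have k4 : 0 ≤ 3 - 8 * n + 3 * n ^ 2 := by nlinarith
    have k5 := mul_nonneg hn2 k4
    linarith
  · have k4 : 0 ≤ (T ^ 2 - (1 / 3 - (1 - n) ^ 2)) * (1 - n + 6 * n ^ 2) :=
      mul_nonneg (by linarith) k2
    have k5 : 0 ≤ -2 / 3 + 8 / 3 * n - 4 * n ^ 2 + 5 * n ^ 3 - 3 * n ^ 4 := by
      nlinarith [mul_nonneg (sub_nonneg.2 hc) (sub_nonneg.2 hn6),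
        mul_nonneg (mul_nonneg (sub_nonneg.2 hc) (sub_nonneg.2 hn6)) hn,
        mul_nonneg (mul_nonneg (sub_nonneg.2 hc) (sub_nonneg.2 hn6)) hn2]
    nlinarith

theorem sb_c0 {n T : ℝ} (hn : 0 ≤ n) (hn6 : n ≤ 1) (hT : 0 ≤ T)
    (h : 3 * T ^ 2 ≤ 1 - 3 / 4 * (1 - n) ^ 2) :
    0 ≤ 12 + 27 * (1 - n) * (2 * n - n ^ 2 - 3 * T ^ 2) - 18 * T + 54 * T ^ 3 := by
  have h1 : 0 ≤ 1 - n := by linarith
  have k1 : 0 ≤ 27 * (1 - n) * (1 - 3 / 4 * (1 - n) ^ 2 - 3 * T ^ 2) :=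
    mul_nonneg (by linarith) (by linarith)
  have k2 : 0 ≤ (3 * T - 1) ^ 2 * (3 * T + 2) := by positivity
  have k3 : (1 - n) ^ 3 ≤ 1 := pow_le_one₀ h1 (by linarith)
  nlinarith

theorem sb_k1 {n : ℝ} (hn : 0 ≤ n) (hn5 : n ≤ 49 / 100) :
    0 ≤ (1 - 4 * n + 6 * n ^ 2) * (1 - 3 / 4 * (1 - n) ^ 2) -
      3 * (n / 2 - 3 / 4 * n ^ 2 + 2 * n ^ 3 - 3 / 4 * n ^ 4) +
      n * (12 - 27 / 4 * (1 - n) ^ 3 - 63 / 8 * (1 - n) ^ 2 + 27 / 8 * (1 - n) ^ 4) -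
      9 / 2 * n * (1 - n) ^ 2 * (1 - 3 / 4 * (1 - n) ^ 2) := by
  nlinarith [mul_nonneg hn (sub_nonneg.2 hn5), mul_nonneg (mul_nonneg hn hn) (sub_nonneg.2 hn5),
    mul_nonneg (mul_nonneg (mul_nonneg hn hn) hn) (sub_nonneg.2 hn5), sq_nonneg (n - 1 / 20),
    mul_nonneg hn (sq_nonneg (n - 1 / 20)), mul_nonneg hn (sq_nonneg (n ^ 2)), pow_nonneg hn 4]

theorem sb_k2 {n : ℝ} (hn : 0 ≤ n) (hn5 : n ≤ 49 / 100) :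
    0 ≤ (1 - 4 * n + 6 * n ^ 2) * (1 - 3 / 4 * (1 - n) ^ 2) -
      3 * (n / 2 - 3 / 4 * n ^ 2 + 2 * n ^ 3 - 3 / 4 * n ^ 4) +
      n * (12 - 27 / 4 * (1 - n) ^ 3 - 63 / 8 * (1 - n) ^ 2 + 27 / 8 * (1 - n) ^ 4) -
      9 / 2 * n * (1 - n) ^ 2 * (1 - 3 / 4 * (1 - n) ^ 2) +
      (3 * (1 - 4 * n + 6 * n ^ 2) - 27 / 2 * n * (1 - n) ^ 2) *
        (5 / 4 * (1 - n) ^ 2 - 1 / 3) := by
  nlinarith [mul_nonneg hn (sub_nonneg.2 hn5), mul_nonneg (mul_nonneg hn hn) (sub_nonneg.2 hn5),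
    mul_nonneg (mul_nonneg (mul_nonneg hn hn) hn) (sub_nonneg.2 hn5), sq_nonneg (n - 1 / 5),
    mul_nonneg hn (sq_nonneg (n - 1 / 5)), mul_nonneg hn (sq_nonneg (n ^ 2)), pow_nonneg hn 4]

/-- the inequality at `r = (1 - n) / 2` -/
theorem sb_k {n T : ℝ} (hn : 0 ≤ n) (hn5 : n ≤ 49 / 100) (hT : 0 ≤ T) (hT1 : T ≤ 1 - n)
    (h : 0 ≤ 3 * T ^ 2 - 1 + 3 / 4 * (1 - n) ^ 2) :
    0 ≤ (3 * T ^ 2 - 1 + 3 / 4 * (1 - n) ^ 2) * ((1 - 4 * n + 6 * n ^ 2) * T ^ 2 -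
      (n / 2 - 3 / 4 * n ^ 2 + 2 * n ^ 3 - 3 / 4 * n ^ 4)) +
      n * T ^ 2 * (12 - 27 / 4 * (1 - n) ^ 2 * (1 - n + 2 * T)) := by
  obtain ⟨v, hv⟩ : ∃ v : ℝ, v = T ^ 2 - (1 - 3 / 4 * (1 - n) ^ 2) / 3 := ⟨_, rfl⟩
  have hv0 : 0 ≤ v := by linarith
  have h1 : 0 ≤ 1 - n := by linarith
  have hvV : v ≤ 5 / 4 * (1 - n) ^ 2 - 1 / 3 := by nlinarith
  have g0 : 0 ≤ n * (1 - 3 / 4 * (1 - n) ^ 2) *
      (12 - 27 / 4 * (1 - n) ^ 3 - 63 / 8 * (1 - n) ^ 2 + 27 / 8 * (1 - n) ^ 4) := by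
    have a1 : 0 ≤ 1 - 3 / 4 * (1 - n) ^ 2 := by nlinarith
    have a2 : 0 ≤ 12 - 27 / 4 * (1 - n) ^ 3 - 63 / 8 * (1 - n) ^ 2 + 27 / 8 * (1 - n) ^ 4 := by
      have b1 : (1 - n) ^ 2 ≤ 1 := pow_le_one₀ h1 (by linarith)
      have b2 : (1 - n) ^ 3 ≤ (1 - n) ^ 2 := pow_le_pow_of_le_one h1 (by linarith) (by norm_num)
      nlinarith [sq_nonneg ((1 - n) ^ 2), sq_nonneg ((1 - n) ^ 2 - 1)]
    positivity
  have k1 := sb_k1 hn hn5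
  have k2 := sb_k2 hn hn5
  have g1 := mul_nonneg hv0 k1
  have g2 := mul_nonneg hv0 k2
  have g3 : 0 ≤ n * T ^ 2 * (27 / 2 * (1 - n) ^ 2 * (T - 1 / 2) ^ 2) := by positivity
  have hT2 : T ^ 2 = v + (1 - 3 / 4 * (1 - n) ^ 2) / 3 := by linarith
  have key : 0 ≤ n * (1 - 3 / 4 * (1 - n) ^ 2) / 3 *
      (12 - 27 / 4 * (1 - n) ^ 3 - 63 / 8 * (1 - n) ^ 2 + 27 / 8 * (1 - n) ^ 4) +
      v * ((1 - 4 * n + 6 * n ^ 2) * (1 - 3 / 4 * (1 - n) ^ 2) -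
      3 * (n / 2 - 3 / 4 * n ^ 2 + 2 * n ^ 3 - 3 / 4 * n ^ 4) +
      n * (12 - 27 / 4 * (1 - n) ^ 3 - 63 / 8 * (1 - n) ^ 2 + 27 / 8 * (1 - n) ^ 4) -
      9 / 2 * n * (1 - n) ^ 2 * (1 - 3 / 4 * (1 - n) ^ 2) +
      (3 * (1 - 4 * n + 6 * n ^ 2) - 27 / 2 * n * (1 - n) ^ 2) * v) := by
    rcases le_total 0 (3 * (1 - 4 * n + 6 * n ^ 2) - 27 / 2 * n * (1 - n) ^ 2) with hc | hc
    · have := mul_nonneg hv0 (mul_nonneg hc hv0)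
      nlinarith
    · have := mul_nonneg hv0 (mul_nonneg (neg_nonneg.2 hc) (sub_nonneg.2 hvV))
      nlinarith
  have e : (3 * T ^ 2 - 1 + 3 / 4 * (1 - n) ^ 2) * ((1 - 4 * n + 6 * n ^ 2) * T ^ 2 -
      (n / 2 - 3 / 4 * n ^ 2 + 2 * n ^ 3 - 3 / 4 * n ^ 4)) +
      n * T ^ 2 * (12 - 27 / 4 * (1 - n) ^ 2 * (1 - n + 2 * T)) =
      (3 * T ^ 2 - 1 + 3 / 4 * (1 - n) ^ 2) * ((1 - 4 * n + 6 * n ^ 2) * T ^ 2 -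
      (n / 2 - 3 / 4 * n ^ 2 + 2 * n ^ 3 - 3 / 4 * n ^ 4)) +
      n * T ^ 2 * (12 - 27 / 4 * (1 - n) ^ 3 - 27 / 2 * (1 - n) ^ 2 * (T ^ 2 + 1 / 4)) +
      n * T ^ 2 * (27 / 2 * (1 - n) ^ 2 * (T - 1 / 2) ^ 2) := by ring
  rw [e, hT2]
  rw [hT2] at g3
  nlinarith

/-- the second case, `r ≤ (1 - n) / 2` -/
theorem sb_two {n r T : ℝ} (hn : 0 ≤ n) (hr : 0 ≤ r) (hT : 0 ≤ T) (hT1 : T ≤ 1 - n)
    (hr1 : 2 * r ≤ 1 - n) (h : 0 ≤ 3 * r ^ 2 + 3 * T ^ 2 - 1) :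
    0 ≤ (3 * r ^ 2 + 3 * T ^ 2 - 1) * (3 * T ^ 2 + 1 - 3 * r ^ 2 - 2 * n -
      2 * (1 + 3 * n) * (r ^ 3 + T ^ 3)) + n * T ^ 2 * (12 - 54 * r ^ 2 * (r + T)) := by
  have h1 : 0 ≤ 1 - n := by linarith
  have hρ : r ^ 2 ≤ (1 - n) ^ 2 / 4 := by nlinarith
  have hTq : T ^ 2 ≤ (1 - n) ^ 2 := pow_le_pow_left₀ hT hT1 2
  have hn5 : n ≤ 49 / 100 := by nlinarith
  have hT2 : 0 ≤ T ^ 2 := sq_nonneg T
  have hr2 : 0 ≤ r ^ 2 := sq_nonneg r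
  obtain ⟨J, hJ⟩ : ∃ J : ℝ, J = (1 - 4 * n + 6 * n ^ 2) * T ^ 2 -
      (n / 2 - 3 / 4 * n ^ 2 + 2 * n ^ 3 - 3 / 4 * n ^ 4) := ⟨_, rfl⟩
  have hJ1 : J ≤ 3 * T ^ 2 + 1 - 3 * r ^ 2 - 2 * n - 2 * (1 + 3 * n) * (r ^ 3 + T ^ 3) := by
    have a1 : 0 ≤ (1 + 3 * n) * (T ^ 2 * (1 - n - T)) :=
      mul_nonneg (by linarith) (mul_nonneg hT2 (by linarith))
    have a2 : 0 ≤ (1 + 3 * n) * (r ^ 2 * (1 - n - 2 * r)) :=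
      mul_nonneg (by linarith) (mul_nonneg hr2 (by linarith))
    have a3 : 0 ≤ (4 + 2 * n - 3 * n ^ 2) * ((1 - n) ^ 2 / 4 - r ^ 2) :=
      mul_nonneg (by nlinarith) (by linarith)
    rw [hJ]
    nlinarith
  have hk := sb_k hn hn5 hT hT1 (by linarith)
  rw [← hJ] at hk
  have m1 := mul_le_mul_of_nonneg_left hJ1 h
  have m2 : 0 ≤ n * T ^ 2 * (27 * r ^ 2 * (1 - n - 2 * r)) := by
    have : 0 ≤ 1 - n - 2 * r := by linarith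
    positivity
  -- the lower bound, linear in `r ^ 2`
  have key : 0 ≤ (3 * r ^ 2 + 3 * T ^ 2 - 1) * J +
      n * T ^ 2 * (12 - 27 * r ^ 2 * (1 - n + 2 * T)) := by
    rcases le_total (9 * (n * T ^ 2) * (1 - n + 2 * T)) J with hc | hc
    · have b1 := mul_le_mul_of_nonneg_left hc h
      have b2 : 0 ≤ 12 + 9 * (1 - n + 2 * T) * (3 * T ^ 2 - 1) := by
        rcases le_total 0 (3 * T ^ 2 - 1) with hd | hd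
        · have : 0 ≤ 9 * (1 - n + 2 * T) * (3 * T ^ 2 - 1) := by positivity
          linarith
        · have c1 : 0 ≤ n * (1 - 3 * T ^ 2) := mul_nonneg hn (by linarith)
          have c2 : 0 ≤ (1 - 3 * T) ^ 2 + 18 * T ^ 3 := by positivity
          nlinarith
      have b3 : 0 ≤ n * T ^ 2 * (12 + 9 * (1 - n + 2 * T) * (3 * T ^ 2 - 1)) :=
        mul_nonneg (mul_nonneg hn hT2) b2
      nlinarith
    · have b1 : 0 ≤ ((1 - n) ^ 2 / 4 - r ^ 2) * (9 * (n * T ^ 2) * (1 - n + 2 * T) - J) :=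
        mul_nonneg (by linarith) (by linarith)
      nlinarith
  nlinarith

end NC31
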