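import Pool.Agent.W_fa9b59_c3.TriS1
import Pool.Agent.W_fa9b59_c3.TriS2

set_option autoImplicit false

/-!
# The inequality for the three-arc bodies
-/

namespace NC31

/-- the first case, `3 / 4 * (1 - n) ^ 2 ≤ x` -/
theorem sb_one {n x T Z : ℝ} (hn : 0 ≤ n) (hT : 0 ≤ T) (hT1 : T ≤ 1 - n)
    (hx : 3 / 4 * (1 - n) ^ 2 ≤ x) (hx3 : x ≤ 3 * (1 - n) ^ 2) (hZ : Z = x + 3 * T ^ 2 - 1)
    (hZ0 : 0 ≤ Z) :
    0 ≤ Z * (6 * T ^ 2 - Z - 2 * n + (1 + 3 * n) * ((1 - n) * (x - (1 - n) ^ 2) - 2 * T ^ 3)) +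
      n * (12 * T ^ 2 + 27 * T ^ 2 * ((1 - n) * (x - (1 - n) ^ 2)) - 18 * x * T ^ 3) := by
  have h1 : 0 ≤ 1 - n := by linarith
  have hTq : T ^ 2 ≤ (1 - n) ^ 2 := pow_le_pow_left₀ hT hT1 2
  have hn6 : n ≤ 3 / 5 := by nlinarith
  have hT2 : 0 ≤ T ^ 2 := sq_nonneg T
  have hc1 := sb_c1 hn hn6 hT1 (by linarith)
  have hx' : x = 1 + Z - 3 * T ^ 2 := by linarith
  have hn2 : 0 ≤ n * (2 - 3 * n) := mul_nonneg hn (by linarith)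
  rcases le_total (3 * T ^ 2) (1 - 3 / 4 * (1 - n) ^ 2) with hc | hc
  · have hc0 := sb_c0 hn (by linarith) hT hc
    have k1 : 0 ≤ n * (2 - 3 * n) * Z ^ 2 := mul_nonneg hn2 (sq_nonneg Z)
    have k2 := mul_nonneg hZ0 hc1
    have k3 : 0 ≤ n * T ^ 2 * (12 + 27 * (1 - n) * (2 * n - n ^ 2 - 3 * T ^ 2) - 18 * T +
      54 * T ^ 3) := mul_nonneg (mul_nonneg hn hT2) hc0
    have e : Z * (6 * T ^ 2 - Z - 2 * n + (1 + 3 * n) * ((1 - n) * (x - (1 - n) ^ 2) -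
        2 * T ^ 3)) +
        n * (12 * T ^ 2 + 27 * T ^ 2 * ((1 - n) * (x - (1 - n) ^ 2)) - 18 * x * T ^ 3) =
        n * (2 - 3 * n) * Z ^ 2 + Z * (n ^ 2 * (3 - 8 * n + 3 * n ^ 2) +
          T ^ 2 * (3 + 21 * n - 18 * n ^ 2) - T ^ 3 * (2 + 24 * n)) +
        n * T ^ 2 * (12 + 27 * (1 - n) * (2 * n - n ^ 2 - 3 * T ^ 2) - 18 * T + 54 * T ^ 3) := by
      rw [hx']
      ring
    rw [e]
    linarith
  · have h2 := sb_two (r := (1 - n) / 2) hn (by linarith) hT hT1 (by linarith) (by linarith)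
    obtain ⟨W, hW⟩ : ∃ W : ℝ, W = 3 * T ^ 2 - 1 + 3 / 4 * (1 - n) ^ 2 := ⟨_, rfl⟩
    have hW0 : 0 ≤ W := by linarith
    have hWZ : W ≤ Z := by linarith
    have k : 0 ≤ (Z - W) * (n * (2 - 3 * n) * (Z + W) +
        (n ^ 2 * (3 - 8 * n + 3 * n ^ 2) + T ^ 2 * (3 + 21 * n - 18 * n ^ 2) -
          T ^ 3 * (2 + 24 * n))) :=
      mul_nonneg (by linarith) (add_nonneg (mul_nonneg hn2 (by linarith)) hc1)
    have e : Z * (6 * T ^ 2 - Z - 2 * n + (1 + 3 * n) * ((1 - n) * (x - (1 - n) ^ 2) -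
        2 * T ^ 3)) +
        n * (12 * T ^ 2 + 27 * T ^ 2 * ((1 - n) * (x - (1 - n) ^ 2)) - 18 * x * T ^ 3) =
        (Z - W) * (n * (2 - 3 * n) * (Z + W) +
        (n ^ 2 * (3 - 8 * n + 3 * n ^ 2) + T ^ 2 * (3 + 21 * n - 18 * n ^ 2) -
          T ^ 3 * (2 + 24 * n))) +
        ((3 * ((1 - n) / 2) ^ 2 + 3 * T ^ 2 - 1) * (3 * T ^ 2 + 1 - 3 * ((1 - n) / 2) ^ 2 - 2 * n -
          2 * (1 + 3 * n) * (((1 - n) / 2) ^ 3 + T ^ 3)) +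
          n * T ^ 2 * (12 - 54 * ((1 - n) / 2) ^ 2 * ((1 - n) / 2 + T))) := by
      rw [hx', hW]
      ring
    rw [e]
    linarith

/-- the two quadratic forms outside of the hexagonal disc -/
theorem sb_main {n x T Z A B : ℝ} (hn : 0 ≤ n) (hn1 : n ≤ 1) (hT : 0 ≤ T) (hT1 : T ≤ 1 - n)
    (hx0 : 0 ≤ x) (hx3 : x ≤ 3 * (1 - n) ^ 2) (hZ : Z = x + 3 * T ^ 2 - 1) (hZ0 : 0 ≤ Z)
    (hA : (1 - n) * (x - (1 - n) ^ 2) ≤ A)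
    (hA2 : ∀ r : ℝ, 0 ≤ r → x = 3 * r ^ 2 → -(2 * r ^ 3) ≤ A) (hB : B ≤ 2 * T ^ 3) :
    0 ≤ Z * (1 - x + 3 * T ^ 2 + A - B) + n * (2 * (1 - x + 3 * T ^ 2) +
      3 * (x + 12 * T ^ 2 - 1) * A - 3 * (4 * x + 3 * T ^ 2 - 1) * B) := by
  have e : Z * (1 - x + 3 * T ^ 2 + A - B) + n * (2 * (1 - x + 3 * T ^ 2) +
      3 * (x + 12 * T ^ 2 - 1) * A - 3 * (4 * x + 3 * T ^ 2 - 1) * B) =
      Z * (6 * T ^ 2 - Z - 2 * n) + 12 * n * T ^ 2 + (Z * (1 + 3 * n) + 27 * n * T ^ 2) * A -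
      (Z * (1 + 3 * n) + 9 * n * x) * B := by
    rw [hZ]
    ring
  rw [e]
  have kB : (Z * (1 + 3 * n) + 9 * n * x) * B ≤ (Z * (1 + 3 * n) + 9 * n * x) * (2 * T ^ 3) :=
    mul_le_mul_of_nonneg_left hB (by positivity)
  have hcA : 0 ≤ Z * (1 + 3 * n) + 27 * n * T ^ 2 := by positivity
  rcases le_total (3 / 4 * (1 - n) ^ 2) x with hc | hc
  · have key := sb_one hn hT hT1 hc hx3 hZ hZ0
    have kA := mul_le_mul_of_nonneg_left hA hcA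
    linarith
  · obtain ⟨r, hr0, hr⟩ : ∃ r : ℝ, 0 ≤ r ∧ x = 3 * r ^ 2 := by
      refine ⟨Real.sqrt (x / 3), Real.sqrt_nonneg _, ?_⟩
      rw [Real.sq_sqrt (by linarith)]
      ring
    have h2r : 2 * r ≤ 1 - n := by
      have h5 : (2 * r) ^ 2 ≤ (1 - n) ^ 2 := by nlinarith
      exact (abs_le_of_sq_le_sq' h5 (by linarith)).2
    have key := sb_two hn hr0 hT hT1 h2r (by linarith)
    have kA := mul_le_mul_of_nonneg_left (hA2 r hr0 hr) hcA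
    rw [hr] at hZ kB ⊢
    rw [hZ] at kA kB ⊢
    linarith

/-- bounds of the cubic form -/
theorem sc_abs {a b r : ℝ} (hr : 0 ≤ r) (h : a ^ 2 + a * b + b ^ 2 = 3 * r ^ 2) :
    -(2 * r ^ 3) ≤ a * b * (-a - b) ∧ a * b * (-a - b) ≤ 2 * r ^ 3 := by
  have hd : 27 * (a * b * (-a - b)) ^ 2 ≤ 4 * (a ^ 2 + a * b + b ^ 2) ^ 3 := by
    nlinarith [sq_nonneg ((a - b) * (2 * a + b) * (a + 2 * b))]
  rw [h] at hd
  have h1 : (a * b * (-a - b)) ^ 2 ≤ (2 * r ^ 3) ^ 2 := by nlinarith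
  exact abs_le_of_sq_le_sq' h1 (by positivity)

theorem sc_sqrt (a b : ℝ) : ∃ r : ℝ, 0 ≤ r ∧ a ^ 2 + a * b + b ^ 2 = 3 * r ^ 2 := by
  have hx : 0 ≤ a ^ 2 + a * b + b ^ 2 := by
    nlinarith [sq_nonneg (a + b), sq_nonneg a, sq_nonneg b]
  refine ⟨Real.sqrt ((a ^ 2 + a * b + b ^ 2) / 3), Real.sqrt_nonneg _, ?_⟩
  rw [Real.sq_sqrt (by linarith)]
  ring

/-- inside of the hexagonal disc, with a coordinate below `-1` -/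
theorem sc_out {t a b a' b' : ℝ} (ht : 0 < t) (ha : a < -1)
    (h0 : t * ((a ^ 2 + a * b + b ^ 2) + (a' ^ 2 + a' * b' + b' ^ 2) - 1) ≤ 1 + a) :
    0 ≤ (1 - (a ^ 2 + a * b + b ^ 2) + (a' ^ 2 + a' * b' + b' ^ 2) + a * b * (-a - b) -
      a' * b' * (-a' - b')) + t * (2 * (1 - (a ^ 2 + a * b + b ^ 2) +
      (a' ^ 2 + a' * b' + b' ^ 2)) + 3 * ((a ^ 2 + a * b + b ^ 2) +
      4 * (a' ^ 2 + a' * b' + b' ^ 2) - 1) * (a * b * (-a - b)) -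
      3 * (4 * (a ^ 2 + a * b + b ^ 2) + (a' ^ 2 + a' * b' + b' ^ 2) - 1) *
      (a' * b' * (-a' - b'))) := by
  obtain ⟨r, hr0, hr⟩ := sc_sqrt a b
  obtain ⟨T, hT0, hT⟩ := sc_sqrt a' b'
  obtain ⟨A1, A2⟩ := sc_abs hr0 hr
  obtain ⟨B1, B2⟩ := sc_abs hT0 hT
  have hA : (1 + (-1 - a)) * ((a ^ 2 + a * b + b ^ 2) - (1 + (-1 - a)) ^ 2) ≤
      a * b * (-a - b) := le_of_eq (by ring)
  have ha43 : a ^ 2 ≤ 4 / 3 * (a ^ 2 + a * b + b ^ 2) := by nlinarith [sq_nonneg (a + 2 * b)]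
  rw [hr] at hA ha43
  rw [hr, hT] at h0
  rw [hr, hT]
  generalize a * b * (-a - b) = A at *
  generalize a' * b' * (-a' - b') = B at *
  have hY : r ^ 2 + T ^ 2 < 1 / 3 := by
    by_contra hcon
    push Not at hcon
    have : 0 ≤ t * (3 * r ^ 2 + 3 * T ^ 2 - 1) := mul_nonneg ht.le (by linarith)
    linarith
  have hm : -1 - a ≤ 1 / 3 := by nlinarith
  have hq := sa_q hr0 hT0 hY.le A1 A2 B1 B2
  have h3 := sa_three (m := -1 - a) (by linarith) hm hT0 hY.le A1 hA B2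
  have hp : 0 < 1 - 3 * r ^ 2 - 3 * T ^ 2 := by linarith
  have hmY : -1 - a ≤ t * (1 - 3 * r ^ 2 - 3 * T ^ 2) := by linarith
  have h4 := mul_le_mul_of_nonneg_right hmY hq
  have h5 : 0 ≤ (1 - 3 * r ^ 2 - 3 * T ^ 2) * ((1 - 3 * r ^ 2 + 3 * T ^ 2 + A - B) +
      t * (2 * (1 - 3 * r ^ 2 + 3 * T ^ 2) + 3 * (3 * r ^ 2 + 12 * T ^ 2 - 1) * A -
      3 * (12 * r ^ 2 + 3 * T ^ 2 - 1) * B)) := by linarith
  have h6 := nonneg_of_mul_nonneg_right h5 hp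
  linarith

end NC31
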