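import Pool.Agent.W_fa9b59_c3.TriE
import Pool.Agent.W_fa9b59_c3.TriS3

set_option autoImplicit false

/-!
# Three-arc bodies: the hypothesis
-/

open MeasureTheory Metric Set

namespace NC31

open FB88 NT31 FB88Stmt

/-- the inequality -/
theorem sd_main {t a b a' b' : ℝ} (ht : 0 < t)
    (h0 : t * ((a ^ 2 + a * b + b ^ 2) + (a' ^ 2 + a' * b' + b' ^ 2) - 1) ≤ 1 + a)
    (h1 : t * ((a ^ 2 + a * b + b ^ 2) + (a' ^ 2 + a' * b' + b' ^ 2) - 1) ≤ 1 + b)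
    (h2 : t * ((a ^ 2 + a * b + b ^ 2) + (a' ^ 2 + a' * b' + b' ^ 2) - 1) ≤ 1 + (-a - b))
    (h3 : t * ((a ^ 2 + a * b + b ^ 2) + (a' ^ 2 + a' * b' + b' ^ 2) - 1) ≤ 1 + a')
    (h4 : t * ((a ^ 2 + a * b + b ^ 2) + (a' ^ 2 + a' * b' + b' ^ 2) - 1) ≤ 1 + b')
    (h5 : t * ((a ^ 2 + a * b + b ^ 2) + (a' ^ 2 + a' * b' + b' ^ 2) - 1) ≤ 1 + (-a' - b')) :
    0 ≤ (1 - (a ^ 2 + a * b + b ^ 2) + (a' ^ 2 + a' * b' + b' ^ 2) + a * b * (-a - b) -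
      a' * b' * (-a' - b')) + t * (2 * (1 - (a ^ 2 + a * b + b ^ 2) +
      (a' ^ 2 + a' * b' + b' ^ 2)) + 3 * ((a ^ 2 + a * b + b ^ 2) +
      4 * (a' ^ 2 + a' * b' + b' ^ 2) - 1) * (a * b * (-a - b)) -
      3 * (4 * (a ^ 2 + a * b + b ^ 2) + (a' ^ 2 + a' * b' + b' ^ 2) - 1) *
      (a' * b' * (-a' - b'))) := by
  obtain ⟨r, hr0, hr⟩ := sc_sqrt a b
  obtain ⟨T, hT0, hT⟩ := sc_sqrt a' b'
  obtain ⟨A1, A2⟩ := sc_abs hr0 hr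
  obtain ⟨B1, B2⟩ := sc_abs hT0 hT
  rcases le_total ((a ^ 2 + a * b + b ^ 2) + (a' ^ 2 + a' * b' + b' ^ 2)) 1 with hc | hc
  · rcases lt_or_ge a (-1) with ha | ha
    · exact sc_out ht ha h0
    rcases lt_or_ge b (-1) with hb | hb
    · have key := sc_out (a := b) (b := a) (a' := a') (b' := b') ht hb (by linarith)
      refine key.trans (le_of_eq ?_)
      ring
    rcases lt_or_ge (-a - b) (-1) with hab | hab
    · have key := sc_out (a := -a - b) (b := a) (a' := a') (b' := b') ht hab (by nlinarith)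
      refine key.trans (le_of_eq ?_)
      ring
    -- all coordinates are at least `-1`
    have hP : 0 ≤ (1 + a) * (1 + b) * (1 + (-a - b)) :=
      mul_nonneg (mul_nonneg (by linarith) (by linarith)) (by linarith)
    have hP' : (1 + a) * (1 + b) * (1 + (-a - b)) =
      1 - (a ^ 2 + a * b + b ^ 2) + a * b * (-a - b) := by ring
    rw [hP', hr] at hP
    rw [hr, hT] at hc
    rw [hr, hT]
    have hY : r ^ 2 + T ^ 2 ≤ 1 / 3 := by linarith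
    have hq := sa_q hr0 hT0 hY A1 A2 B1 B2
    have hT1 : T ≤ 3 / 5 := by nlinarith
    have hT3 : T ^ 3 ≤ T ^ 2 := by nlinarith [mul_nonneg (sq_nonneg T) (sub_nonneg.2 hT1)]
    have := mul_nonneg ht.le hq
    nlinarith
  · -- outside of the disc
    obtain ⟨n, hn⟩ : ∃ n : ℝ, n = t * ((a ^ 2 + a * b + b ^ 2) +
      (a' ^ 2 + a' * b' + b' ^ 2) - 1) := ⟨_, rfl⟩
    rw [← hn] at h0 h1 h2 h3 h4 h5
    have hn0 : 0 ≤ n := by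
      rw [hn]
      exact mul_nonneg ht.le (by linarith)
    have c0 : 0 ≤ (1 - n) + a := by linarith
    have c1 : 0 ≤ (1 - n) + b := by linarith
    have c2 : 0 ≤ (1 - n) + (-a - b) := by linarith
    have c3 : 0 ≤ (1 - n) + a' := by linarith
    have c4 : 0 ≤ (1 - n) + b' := by linarith
    have c5 : 0 ≤ (1 - n) + (-a' - b') := by linarith
    have hn1 : n ≤ 1 := by linarith
    have he2 : a ^ 2 + a * b + b ^ 2 ≤ 3 * (1 - n) ^ 2 := by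
      nlinarith [mul_nonneg c0 c1, mul_nonneg c1 c2, mul_nonneg c0 c2]
    have he2' : a' ^ 2 + a' * b' + b' ^ 2 ≤ 3 * (1 - n) ^ 2 := by
      nlinarith [mul_nonneg c3 c4, mul_nonneg c4 c5, mul_nonneg c3 c5]
    have he3 : (1 - n) * ((a ^ 2 + a * b + b ^ 2) - (1 - n) ^ 2) ≤ a * b * (-a - b) := by
      nlinarith [mul_nonneg (mul_nonneg c0 c1) c2]
    have hge : ∀ r : ℝ, 0 ≤ r → a ^ 2 + a * b + b ^ 2 = 3 * r ^ 2 →
        -(2 * r ^ 3) ≤ a * b * (-a - b) := fun r hr h => (sc_abs hr h).1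
    have hx0 : 0 ≤ a ^ 2 + a * b + b ^ 2 := by
      rw [hr]
      positivity
    rw [hT] at he2' hc hn
    rw [hT]
    have hTn : T ≤ 1 - n := by
      have : T ^ 2 ≤ (1 - n) ^ 2 := by linarith
      exact (abs_le_of_sq_le_sq' this (by linarith)).2
    obtain ⟨Z, hZ⟩ : ∃ Z : ℝ, Z = (a ^ 2 + a * b + b ^ 2) + 3 * T ^ 2 - 1 := ⟨_, rfl⟩
    have hZ0 : 0 ≤ Z := by linarith
    have key := sb_main hn0 hn1 hT0 hTn hx0 he2 hZ hZ0 he3 hge B2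
    rw [← hZ] at hn
    rcases hZ0.eq_or_lt with hz | hz
    · -- on the circle
      have hnz : n = 0 := by rw [hn, ← hz, mul_zero]
      rw [hnz] at c0 c1 c2 hTn
      have hP : 0 ≤ (1 + a) * (1 + b) * (1 + (-a - b)) :=
        mul_nonneg (mul_nonneg (by linarith) (by linarith)) (by linarith)
      have hP' : (1 + a) * (1 + b) * (1 + (-a - b)) =
        1 - (a ^ 2 + a * b + b ^ 2) + a * b * (-a - b) := by ring
      rw [hP', hr] at hP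
      rw [hr] at hZ ⊢
      have hY : r ^ 2 + T ^ 2 ≤ 1 / 3 := by linarith
      have hq := sa_q hr0 hT0 hY A1 A2 B1 B2
      have hT1 : T ≤ 3 / 5 := by nlinarith
      have hT3 : T ^ 3 ≤ T ^ 2 := by nlinarith [mul_nonneg (sq_nonneg T) (sub_nonneg.2 hT1)]
      have := mul_nonneg ht.le hq
      nlinarith
    · rw [hn] at key
      refine nonneg_of_mul_nonneg_right (a := Z) ?_ hz
      refine key.trans (le_of_eq ?_)
      ring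

/-- the affine three-arc body -/
def Arc (P Q S : E) (c : ℝ) : Set E :=
  {x | ∃ p q r : ℝ, p + q + r = 1 ∧ p ^ 2 + p * q + q ^ 2 ≤ c ∧ q ^ 2 + q * r + r ^ 2 ≤ c ∧
    r ^ 2 + r * p + p ^ 2 ≤ c ∧ x = p • P + q • Q + r • S}

theorem arc_pt {p q r c : ℝ} (s : p + q + r = 1) (h : q ^ 2 + q * r + r ^ 2 ≤ c) :
    p ^ 2 + p * q + q ^ 2 - p - q + 1 / 3 ≤ c - 2 / 3 + p := by
  have e : r = 1 - p - q := by linarith
  subst e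
  nlinarith

theorem arc_avg {p₁ q₁ p₂ q₂ p₃ q₃ r₂ r₃ : ℝ} (s2 : p₂ + q₂ + r₂ = 1)
    (s3 : p₃ + q₃ + r₃ = 1) {a b a' b' : ℝ}
    (ha : a = (p₁ + r₃ + q₂ - 1) / 3) (hb : b = (q₁ + p₃ + r₂ - 1) / 3)
    (ha' : a' = (p₁ + r₂ + q₃ - 1) / 3) (hb' : b' = (q₁ + p₂ + r₃ - 1) / 3) :
    (a ^ 2 + a * b + b ^ 2) + (a' ^ 2 + a' * b' + b' ^ 2) ≤
      ((p₁ ^ 2 + p₁ * q₁ + q₁ ^ 2 - p₁ - q₁ + 1 / 3) +
      (p₂ ^ 2 + p₂ * q₂ + q₂ ^ 2 - p₂ - q₂ + 1 / 3) +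
      (p₃ ^ 2 + p₃ * q₃ + q₃ ^ 2 - p₃ - q₃ + 1 / 3)) / 3 := by
  have e2' : r₂ = 1 - p₂ - q₂ := by linarith
  have e3' : r₃ = 1 - p₃ - q₃ := by linarith
  have hC : 0 ≤ ((p₁ + p₂ + p₃ - 1) / 3) ^ 2 + ((p₁ + p₂ + p₃ - 1) / 3) *
      ((q₁ + q₂ + q₃ - 1) / 3) + ((q₁ + q₂ + q₃ - 1) / 3) ^ 2 := by
    nlinarith [sq_nonneg ((p₁ + p₂ + p₃ - 1) / 3 + (q₁ + q₂ + q₃ - 1) / 3),
      sq_nonneg ((p₁ + p₂ + p₃ - 1) / 3), sq_nonneg ((q₁ + q₂ + q₃ - 1) / 3)]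
  subst ha hb ha' hb' e2' e3'
  nlinarith [hC]

theorem arc_hyp {P Q S : E} (hd : 0 < det2 (P - S) (Q - S)) {t : ℝ} (ht : 0 < t) {K : Set E}
    (hK : K ⊆ Arc P Q S (1 / 3 + t + t ^ 2)) :
    Hyp (rot P Q S) (ba P Q S) (det2 (P - S) (Q - S) * (1 - 3 * t) / (t * (1 + 2 * t)))
      (3 * det2 (P - S) (Q - S) / (t ^ 2 * (1 + 2 * t))) (fun _ => 0) 0
      (det2 (P - S) (Q - S) * t ^ 2) K := by
  intro x hx y hy z hz
  obtain ⟨p₁, q₁, r₁, a1, a2, a3, a4, rfl⟩ := hK hx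
  obtain ⟨p₂, q₂, r₂, b1, b2, b3, b4, rfl⟩ := hK hy
  obtain ⟨p₃, q₃, r₃, c1, c2, c3, c4, rfl⟩ := hK hz
  unfold Hin
  rw [avg_eq hd.ne' a1 b1 c1, avg_eq' hd.ne' a1 b1 c1, qf_rot hd.ne', qf_rot hd.ne',
    e2_rot hd.ne', e2_rot hd.ne', e3_rot hd.ne', e3_rot hd.ne']
  obtain ⟨a, ha⟩ : ∃ a : ℝ, t * a = (p₁ + r₃ + q₂ - 1) / 3 :=
    ⟨(p₁ + r₃ + q₂ - 1) / 3 / t, mul_div_cancel₀ _ ht.ne'⟩
  obtain ⟨b, hb⟩ : ∃ b : ℝ, t * b = (q₁ + p₃ + r₂ - 1) / 3 :=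
    ⟨(q₁ + p₃ + r₂ - 1) / 3 / t, mul_div_cancel₀ _ ht.ne'⟩
  obtain ⟨a', ha'⟩ : ∃ a' : ℝ, t * a' = (p₁ + r₂ + q₃ - 1) / 3 :=
    ⟨(p₁ + r₂ + q₃ - 1) / 3 / t, mul_div_cancel₀ _ ht.ne'⟩
  obtain ⟨b', hb'⟩ : ∃ b' : ℝ, t * b' = (q₁ + p₂ + r₃ - 1) / 3 :=
    ⟨(q₁ + p₂ + r₃ - 1) / 3 / t, mul_div_cancel₀ _ ht.ne'⟩
  rw [← ha, ← hb, ← ha', ← hb']
  have av := arc_avg b1 c1 ha hb ha' hb'
  have u1 := arc_pt a1 a3
  have u2 := arc_pt (p := q₁) (q := r₁) (r := p₁) (by linarith) a4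
  have u3 := arc_pt (p := r₁) (q := p₁) (r := q₁) (by linarith) a2
  have v1 := arc_pt b1 b3
  have v2 := arc_pt (p := q₂) (q := r₂) (r := p₂) (by linarith) b4
  have v3 := arc_pt (p := r₂) (q := p₂) (r := q₂) (by linarith) b2
  have w1 := arc_pt c1 c3
  have w2 := arc_pt (p := q₃) (q := r₃) (r := p₃) (by linarith) c4
  have w3 := arc_pt (p := r₃) (q := p₃) (r := q₃) (by linarith) c2
  have s1 : q₁ ^ 2 + q₁ * r₁ + r₁ ^ 2 - q₁ - r₁ = p₁ ^ 2 + p₁ * q₁ + q₁ ^ 2 - p₁ - q₁ := by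
    have : r₁ = 1 - p₁ - q₁ := by linarith
    subst this
    ring
  have s1' : r₁ ^ 2 + r₁ * p₁ + p₁ ^ 2 - r₁ - p₁ = p₁ ^ 2 + p₁ * q₁ + q₁ ^ 2 - p₁ - q₁ := by
    have : r₁ = 1 - p₁ - q₁ := by linarith
    subst this
    ring
  have s2 : q₂ ^ 2 + q₂ * r₂ + r₂ ^ 2 - q₂ - r₂ = p₂ ^ 2 + p₂ * q₂ + q₂ ^ 2 - p₂ - q₂ := by
    have : r₂ = 1 - p₂ - q₂ := by linarith
    subst this
    ring
  have s2' : r₂ ^ 2 + r₂ * p₂ + p₂ ^ 2 - r₂ - p₂ = p₂ ^ 2 + p₂ * q₂ + q₂ ^ 2 - p₂ - q₂ := by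
    have : r₂ = 1 - p₂ - q₂ := by linarith
    subst this
    ring
  have s3 : q₃ ^ 2 + q₃ * r₃ + r₃ ^ 2 - q₃ - r₃ = p₃ ^ 2 + p₃ * q₃ + q₃ ^ 2 - p₃ - q₃ := by
    have : r₃ = 1 - p₃ - q₃ := by linarith
    subst this
    ring
  have s3' : r₃ ^ 2 + r₃ * p₃ + p₃ ^ 2 - r₃ - p₃ = p₃ ^ 2 + p₃ * q₃ + q₃ ^ 2 - p₃ - q₃ := by
    have : r₃ = 1 - p₃ - q₃ := by linarith
    subst this
    ring
  have sc : ∀ {f : ℝ}, ((t * a) ^ 2 + t * a * (t * b) + (t * b) ^ 2) +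
      ((t * a') ^ 2 + t * a' * (t * b') + (t * b') ^ 2) ≤ t + t ^ 2 + t * f →
      t * ((a ^ 2 + a * b + b ^ 2) + (a' ^ 2 + a' * b' + b' ^ 2) - 1) ≤ 1 + f := by
    intro f hf
    refine le_of_mul_le_mul_left ?_ ht
    linarith
  have k0 := sc (f := a) (by linarith)
  have k1 := sc (f := b) (by linarith)
  have k2 := sc (f := -a - b) (by linarith)
  have k3 := sc (f := a') (by linarith)
  have k4 := sc (f := b') (by linarith)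
  have k5 := sc (f := -a' - b') (by linarith)
  have key := sd_main ht k0 k1 k2 k3 k4 k5
  have ht2 : 0 < 1 + 2 * t := by linarith
  have hD : 0 ≤ det2 (P - S) (Q - S) * t ^ 2 / (1 + 2 * t) := by positivity
  have h2 := mul_nonneg hD key
  generalize det2 (P - S) (Q - S) = D at *
  refine le_of_sub_nonneg (h2.trans (le_of_eq ?_))
  field_simp
  ring

end NC31
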