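import Pool.Agent.W_fa9b59_c3.TriS0
import Pool.Agent.W_fa9b59_c3.TriS4

set_option autoImplicit false

/-!
# Three-arc bodies: intersections of three congruent discs
-/

open MeasureTheory Metric Set

namespace NC31

open FB88 NT31 FB88Stmt

theorem arc_swap {P Q S : E} {c : ℝ} : Arc P Q S c ⊆ Arc Q P S c := by
  rintro x ⟨p, q, r, h1, h2, h3, h4, rfl⟩
  refine ⟨q, p, r, by linarith, by linarith [mul_comm p q], by linarith [mul_comm p r],
    by linarith [mul_comm q r], ?_⟩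
  rw [add_comm (p • P) (q • Q)]

/-- equality for all compact convex sets between the hexagon and the three-arc body -/
theorem arc_all {P Q S : E} (hd : det2 (P - S) (Q - S) ≠ 0) {t : ℝ} (ht : 0 < t) {K : Set E}
    (hc : Convex ℝ K) (hk : IsCompact K) (hH : Hexa P Q S t K)
    (hK : K ⊆ Arc P Q S (1 / 3 + t + t ^ 2)) :
    thetaT K = thetaL K ∧ thetaL K = volume K /
      ENNReal.ofReal (3 * t ^ 2 * |det2 (P - S) (Q - S)|) := by
  rcases lt_or_gt_of_ne hd with h | h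
  · have h' : 0 < det2 (Q - S) (P - S) := by
      rw [det2_swap]
      linarith
    have key := hexa_pos h' ht hc hk (hexa_swap hH) (arc_hyp h' ht (hK.trans arc_swap))
    have e : det2 (Q - S) (P - S) = |det2 (P - S) (Q - S)| := by
      rw [abs_of_neg h, det2_swap]
    rw [e] at key
    exact ⟨key.1.trans key.2.symm, key.2⟩
  · have key := hexa_pos h ht hc hk hH (arc_hyp h ht hK)
    rw [← abs_of_pos h] at key
    exact ⟨key.1.trans key.2.symm, key.2⟩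

/-- the intersection of three congruent discs -/
def TD (P Q S : E) (ρ : ℝ) : Set E := closedBall P ρ ∩ closedBall Q ρ ∩ closedBall S ρ

theorem td_mem {P Q S : E} {w c ρ : ℝ} (hw : 0 < w) (hρ : 0 ≤ ρ) (hc : ρ ^ 2 = w ^ 2 * c)
    (h1 : dist P Q = w) (h2 : dist Q S = w) (h3 : dist S P = w) {p q r : ℝ}
    (hs : p + q + r = 1) :
    p • P + q • Q + r • S ∈ TD P Q S ρ ↔
      p ^ 2 + p * q + q ^ 2 ≤ c ∧ q ^ 2 + q * r + r ^ 2 ≤ c ∧ r ^ 2 + r * p + p ^ 2 ≤ c := by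
  have hw2 : 0 < w ^ 2 := by positivity
  have key : ∀ {y : E} {e : ℝ} {X : E}, dist y X ^ 2 = w ^ 2 * e → (dist y X ≤ ρ ↔ e ≤ c) := by
    intro y e X h
    rw [← sq_le_sq₀ dist_nonneg hρ, h, hc]
    exact mul_le_mul_iff_of_pos_left hw2
  have d1 := key (bary_dist h1 h2 h3 hs)
  have e2' : p • P + q • Q + r • S = q • Q + r • S + p • P := by abel
  have e3' : p • P + q • Q + r • S = r • S + p • P + q • Q := by abel
  have d2 := key (bary_dist h2 h3 h1 (p := q) (q := r) (r := p) (by linarith))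
  have d3 := key (bary_dist h3 h1 h2 (p := r) (q := p) (r := q) (by linarith))
  rw [← e2'] at d2
  rw [← e3'] at d3
  unfold TD
  simp only [mem_inter_iff, mem_closedBall]
  rw [d1, d2, d3]
  tauto

theorem td_det {P Q S : E} {w : ℝ} (hw : 0 < w) (h1 : dist P Q = w) (h2 : dist Q S = w)
    (h3 : dist S P = w) :
    det2 (P - S) (Q - S) ≠ 0 ∧ |det2 (P - S) (Q - S)| = Real.sqrt 3 / 2 * w ^ 2 := by
  have hdet := equi_det hw h1 h2 h3
  refine ⟨?_, ?_⟩
  · intro h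
    rw [h] at hdet
    have : 0 < 3 / 4 * w ^ 4 := by positivity
    linarith
  · have h3s : Real.sqrt 3 ^ 2 = 3 := Real.sq_sqrt (by norm_num)
    have hp : 0 ≤ Real.sqrt 3 / 2 * w ^ 2 := by positivity
    have hsq : |det2 (P - S) (Q - S)| ^ 2 = (Real.sqrt 3 / 2 * w ^ 2) ^ 2 := by
      rw [sq_abs, hdet, mul_pow, div_pow, h3s]
      ring
    exact (sq_eq_sq₀ (abs_nonneg _) hp).1 hsq

theorem td_sub {P Q S : E} {w c ρ : ℝ} (hw : 0 < w) (hρ : 0 ≤ ρ) (hc : ρ ^ 2 = w ^ 2 * c)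
    (h1 : dist P Q = w) (h2 : dist Q S = w) (h3 : dist S P = w) : TD P Q S ρ ⊆ Arc P Q S c := by
  intro x hx
  have hd := (td_det hw h1 h2 h3).1
  obtain ⟨a, b, hab⟩ : ∃ a b : ℝ, x - S = a • (P - S) + b • (Q - S) :=
    ⟨_, _, exp_eq hd (x - S)⟩
  have he : x = a • P + b • Q + (1 - a - b) • S := by
    have : x = S + (x - S) := by abel
    rw [this, hab]
    module
  rw [he] at hx ⊢
  have hs : a + b + (1 - a - b) = 1 := by ring
  obtain ⟨g1, g2, g3⟩ := (td_mem hw hρ hc h1 h2 h3 hs).1 hx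
  exact ⟨a, b, 1 - a - b, hs, g1, g2, g3, rfl⟩

theorem td_hexa {P Q S : E} {w t ρ : ℝ} (hw : 0 < w) (hρ : 0 ≤ ρ) (ht : 0 ≤ t)
    (hc : ρ ^ 2 = w ^ 2 * (1 / 3 + t + t ^ 2)) (h1 : dist P Q = w) (h2 : dist Q S = w)
    (h3 : dist S P = w) : Hexa P Q S t (TD P Q S ρ) := by
  have mem : ∀ {p q r : ℝ}, p + q + r = 1 → p ^ 2 + p * q + q ^ 2 ≤ 1 / 3 + t + t ^ 2 →
      q ^ 2 + q * r + r ^ 2 ≤ 1 / 3 + t + t ^ 2 → r ^ 2 + r * p + p ^ 2 ≤ 1 / 3 + t + t ^ 2 →
      p • P + q • Q + r • S ∈ TD P Q S ρ := fun hs g1 g2 g3 =>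
    (td_mem hw hρ hc h1 h2 h3 hs).2 ⟨g1, g2, g3⟩
  refine ⟨?_, ?_, ?_, ?_, ?_, ?_⟩
  · exact mem (by ring) (by nlinarith) (by nlinarith) (by nlinarith)
  · have e : (1 / 3 + t) • Q + (1 / 3 : ℝ) • S + (1 / 3 - t) • P =
        (1 / 3 - t) • P + (1 / 3 + t) • Q + (1 / 3 : ℝ) • S := by abel
    rw [e]
    exact mem (by ring) (by nlinarith) (by nlinarith) (by nlinarith)
  · have e : (1 / 3 + t) • S + (1 / 3 : ℝ) • P + (1 / 3 - t) • Q =
        (1 / 3 : ℝ) • P + (1 / 3 - t) • Q + (1 / 3 + t) • S := by abel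
    rw [e]
    exact mem (by ring) (by nlinarith) (by nlinarith) (by nlinarith)
  · exact mem (by ring) (by nlinarith) (by nlinarith) (by nlinarith)
  · have e : (1 / 3 - t) • Q + (1 / 3 : ℝ) • S + (1 / 3 + t) • P =
        (1 / 3 + t) • P + (1 / 3 - t) • Q + (1 / 3 : ℝ) • S := by abel
    rw [e]
    exact mem (by ring) (by nlinarith) (by nlinarith) (by nlinarith)
  · have e : (1 / 3 - t) • S + (1 / 3 : ℝ) • P + (1 / 3 + t) • Q =
        (1 / 3 : ℝ) • P + (1 / 3 + t) • Q + (1 / 3 - t) • S := by abel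
    rw [e]
    exact mem (by ring) (by nlinarith) (by nlinarith) (by nlinarith)

theorem td_conv (P Q S : E) (ρ : ℝ) : Convex ℝ (TD P Q S ρ) :=
  ((convex_closedBall P ρ).inter (convex_closedBall Q ρ)).inter (convex_closedBall S ρ)

theorem td_comp (P Q S : E) (ρ : ℝ) : IsCompact (TD P Q S ρ) :=
  ((isCompact_closedBall P ρ).inter_right isClosed_closedBall).inter_right isClosed_closedBall

/-- the intersection of three congruent discs centred at the vertices of an equilateral triangle -/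
theorem td_self {P Q S : E} {w ρ : ℝ} (hw : 0 < w) (hρ : 0 < ρ) (h : w ^ 2 < 3 * ρ ^ 2)
    (h1 : dist P Q = w) (h2 : dist Q S = w) (h3 : dist S P = w) :
    thetaT (TD P Q S ρ) = thetaL (TD P Q S ρ) ∧ thetaL (TD P Q S ρ) = volume (TD P Q S ρ) /
      ENNReal.ofReal (3 * Real.sqrt 3 / 2 * (Real.sqrt (ρ ^ 2 - w ^ 2 / 12) - w / 2) ^ 2) := by
  obtain ⟨u, hu⟩ : ∃ u : ℝ, u = Real.sqrt (ρ ^ 2 - w ^ 2 / 12) := ⟨_, rfl⟩
  have hu2 : u ^ 2 = ρ ^ 2 - w ^ 2 / 12 := by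
    rw [hu]
    exact Real.sq_sqrt (by nlinarith)
  have hu0 : 0 ≤ u := by
    rw [hu]
    exact Real.sqrt_nonneg _
  rw [← hu]
  have huw : 0 < u - w / 2 := by
    by_contra hcon
    push Not at hcon
    nlinarith
  obtain ⟨t, ht⟩ : ∃ t : ℝ, w * t = u - w / 2 :=
    ⟨(u - w / 2) / w, mul_div_cancel₀ _ hw.ne'⟩
  have ht0 : 0 < t := by
    rw [← ht] at huw
    exact (pos_iff_pos_of_mul_pos huw).1 hw
  have hc : ρ ^ 2 = w ^ 2 * (1 / 3 + t + t ^ 2) := by
    have : ρ ^ 2 = (w * t + w / 2) ^ 2 + w ^ 2 / 12 := by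
      rw [ht]
      linarith [sub_add_cancel u (w / 2), congrArg (fun z => z ^ 2) (sub_add_cancel u (w / 2))]
    rw [this]
    ring
  have hd := td_det hw h1 h2 h3
  have key := arc_all hd.1 ht0 (td_conv P Q S ρ) (td_comp P Q S ρ)
    (td_hexa hw hρ.le ht0.le hc h1 h2 h3) (td_sub hw hρ.le hc h1 h2 h3)
  have e : 3 * t ^ 2 * |det2 (P - S) (Q - S)| = 3 * Real.sqrt 3 / 2 * (u - w / 2) ^ 2 := by
    rw [hd.2, ← ht]
    ring
  rwa [e] at key

end NC31
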